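import Pool.Agent.TH546.L2.Pairs
import Pool.Agent.W387.S.Chn

/-!
Chains of folded bridges: one-step Gronwall argument with straddling strands.
-/

set_option linter.unusedSectionVars false

namespace Pool.Agent.TH546.L2

open Pool.Agent.W387.S hiding PU_le PU
open H982
open scoped ENNReal
open PowerSeries

variable [L : H982.Lat]

/-- all suffixes of `β` which are not wider than `β'` form extendable pairs with `β'` -/
def CD (β β' : List St) : Prop :=
  ∀ u X, IsB u → IsB X → β = u ++ X → wd X ≤ wd β' → PP X β'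

lemma CD.suf {a β β' : List St} (ha : IsB a) (h : CD (a ++ β) β') : CD β β' := by
  intro u X hu hX he hw
  exact h (a ++ u) X (ha.append hu) hX (by rw [he, List.append_assoc]) hw

lemma CD.cc {r : ℕ} {β β' : List St} (h : CD β β') (hr : r ≤ wd β') : CC r β β' :=
  fun u X hu hX he hw => h u X hu hX he (hw.trans hr)

lemma CD_nil_left (β' : List St) : CD [] β' := by
  intro u X hu hX he hw h1
  exfalso
  have := (List.append_eq_nil_iff.mp he.symm).2
  exact h1 this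

lemma CD_of_NCg {β β' : List St} (h : NCg β β') (h2 : wd β' ≤ wd β) : CD β β' := by
  intro u X hu hX he hw _ _
  subst he
  refine ⟨⟨u, hu, h, h2⟩, ⟨[], isB_nil, ?_, ?_⟩⟩
  · rw [List.append_nil]; exact h.suf
  · rw [List.append_nil]; exact hw

/-- chains with decreasing widths in `[r, r + k)` following `β` -/
noncomputable def Rd (r : ℕ) : ℕ → List St → PS
  | 0, _ => 1
  | k + 1, β => Rd r k β + fs (fun β' => ii (IsBr (r + k) β' ∧ CD β β') * (xl β' * Rd r k β'))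

lemma Rr_le_Rd (r k : ℕ) (β : List St) (hw : β = [] ∨ r + k ≤ wd β) : Rr r k β ≤ Rd r k β := by
  induction k generalizing β with
  | zero => exact le_rfl
  | succ k ih =>
    simp only [Rr, Rd]
    refine add_le_add (ih β (hw.imp id (fun h => by omega))) (fs_mono fun β' => ?_)
    by_cases h : IsBr (r + k) β' ∧ NCg β β'
    · rw [ii_of h, one_mul]
      have h2 : CD β β' := by
        rcases hw with hw | hw
        · rw [hw]; exact CD_nil_left β'
        · exact CD_of_NCg h.2 (by rw [h.1.wd]; omega)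
      rw [ii_of (p := IsBr (r + k) β' ∧ CD β β') ⟨h.1, h2⟩, one_mul]
      gcongr
      exact ih β' (Or.inr (by rw [h.1.wd]))
    · rw [ii_not h, zero_mul]; exact zero_le

lemma Rd_suf (r k : ℕ) (u β : List St) (hu : IsB u) : Rd r k (u ++ β) ≤ Rd r k β := by
  induction k with
  | zero => exact le_rfl
  | succ k ih =>
    simp only [Rd]
    apply add_le_add ih
    apply fs_mono
    intro β'
    gcongr
    exact ii_mono fun h' => ⟨h'.1, h'.2.suf hu⟩

/-- the chains whose first strand has width `r + l` -/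
noncomputable def sd (r l : ℕ) (β : List St) : PS :=
  fs (fun β' => ii (IsBr (r + l) β' ∧ CD β β') * (xl β' * Rd r l β'))

lemma Rd_eq (r k : ℕ) (β : List St) : Rd r k β = 1 + ∑ l ∈ Finset.range k, sd r l β := by
  induction k with
  | zero => simp [Rd]
  | succ k ih =>
    rw [Finset.sum_range_succ, ← add_assoc, ← ih]
    rfl

lemma sd_suf (r l : ℕ) (u β : List St) (hu : IsB u) : sd r l (u ++ β) ≤ sd r l β := by
  apply fs_mono
  intro β'
  gcongr
  exact ii_mono fun h' => ⟨h'.1, h'.2.suf hu⟩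

lemma Rd_le_one_add (r k : ℕ) (β : List St) : Rd r k β ≤
    1 + fs (fun β' => ii ((IsB β' ∧ r ≤ wd β' ∧ wd β' < r + k) ∧ CD β β') *
      (xl β' * Rd r (wd β' - r) β')) := by
  induction k with
  | zero => simp only [Rd]; exact le_self_add
  | succ k ih =>
    have e : fs (fun β' => ii (IsBr (r + k) β' ∧ CD β β') * (xl β' * Rd r k β')) =
        fs (fun β' => ii (IsBr (r + k) β' ∧ CD β β') * (xl β' * Rd r (wd β' - r) β')) := by
      apply fs_congr
      intro β'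
      by_cases h : IsBr (r + k) β' ∧ CD β β'
      · rw [h.1.wd, show r + k - r = k by omega]
      · rw [ii_not h, zero_mul, zero_mul]
    calc Rd r (k + 1) β = Rd r k β + fs (fun β' => ii (IsBr (r + k) β' ∧ CD β β') *
          (xl β' * Rd r k β')) := rfl
      _ ≤ (1 + fs (fun β' => ii ((IsB β' ∧ r ≤ wd β' ∧ wd β' < r + k) ∧ CD β β') *
            (xl β' * Rd r (wd β' - r) β'))) + fs (fun β' => ii (IsBr (r + k) β' ∧ CD β β') *
          (xl β' * Rd r (wd β' - r) β')) := by rw [e]; gcongr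
      _ = 1 + (fs (fun β' => ii ((IsB β' ∧ r ≤ wd β' ∧ wd β' < r + k) ∧ CD β β') *
            (xl β' * Rd r (wd β' - r) β')) + fs (fun β' => ii (IsBr (r + k) β' ∧ CD β β') *
          (xl β' * Rd r (wd β' - r) β'))) := by ring
      _ ≤ _ := by
          gcongr
          exact comb_aux r k (CD β) _ _ (fun β' => le_rfl)

/-- no renewal level strictly inside an irreducible piece -/
lemma no_cut {A B Y ι X : List St} (hA : IsB A) (hB : IsB B) (hY : IsB Y) (hι : Irr ι)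
    (hX : IsB X) (he : A ++ B = Y ++ (ι ++ X)) : ¬ (wd X < wd B ∧ wd B < wd X + wd ι) := by
  rintro ⟨h1, h2⟩
  have hw : wd A + wd B = wd Y + (wd ι + wd X) := by
    rw [← wd_append hA hB, he, wd_append hY (hι.1.append hX), wd_append hι.1 hX]
  have s1 : Spl (wd Y) (A ++ B) Y (ι ++ X) := ⟨he, hY.br, hι.1.append hX⟩
  have s2 : Spl (wd A) (A ++ B) A B := ⟨rfl, hA.br, hB⟩
  have s3 : Spl (wd Y + wd ι) (A ++ B) (Y ++ ι) X :=
    ⟨by rw [he, List.append_assoc], hY.br.append hι.1.br, hX⟩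
  obtain ⟨M, e1, e2, e3⟩ := s1.refine s2 (by omega)
  obtain ⟨M2, f1, f2, f3⟩ := s2.refine s3 (by omega)
  have g1 : ι = M ++ M2 := by
    rw [e1, List.append_assoc] at f1
    exact List.append_cancel_left f1
  rcases hι.2.2 _ _ _ ⟨g1, e3, f3.isB⟩ with h | h
  · exact e3.ne_nil (by omega) h
  · exact f3.ne_nil (by omega) h

/-- the mark lemma, with marks at distance in `[a, a + n)` from the end -/
theorem mark_int (a n : ℕ) (P : List St → Prop) (Q : L3 → Prop) (g : List St → PS) (h : L3 → PS)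
    (hP : ∀ β, P β → IsB β ∧ a + n ≤ wd β)
    (hPQ : ∀ t m, IsT t → a ≤ m → m < a + n → wd t.2.2 ≤ m → m < wd t.2.2 + wd t.2.1 →
      P (cat3 t) → Q t ∧ g (cat3 t) ≤ h t) :
    cst (n : ℝ≥0∞) * fs (fun β => ii (P β) * g β) ≤
      fs (fun t : L3 => ii (IsT t ∧ Q t) * (cst (wd t.2.1 : ℝ≥0∞) * h t)) := by
  have h1 : cst (n : ℝ≥0∞) * fs (fun β => ii (P β) * g β) =
      fs (fun q : ℕ × List St => ii (q.1 < n ∧ P q.2) * g q.2) := by
    rw [cst_nat_eq, fs_mul_fs]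
    congr 1; ext1 q
    rw [ii_and]; ring
  have h2 : fs (fun t : L3 => ii (IsT t ∧ Q t) * (cst (wd t.2.1 : ℝ≥0∞) * h t)) =
      fs (fun q : ℕ × L3 => ii (q.1 < wd q.2.2.1 ∧ (IsT q.2 ∧ Q q.2)) * h q.2) := by
    conv_rhs => rw [fs_prod, fs_comm]
    apply fs_congr
    intro t
    rw [cst_nat_eq]
    simp only
    calc ii (IsT t ∧ Q t) * (fs (fun m => ii (m < wd t.2.1) * 1) * h t)
        = (ii (IsT t ∧ Q t) * h t) * fs (fun m => ii (m < wd t.2.1) * 1) := by ring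
      _ = _ := by
        rw [mul_fs]
        congr 1; ext1 m
        rw [ii_and (m < wd t.2.1)]; ring
  rw [h1, h2]
  refine fs_cover _ _ _ _ (fun q : ℕ × L3 => (wd q.2.2.2 + q.1 - a, cat3 q.2)) ?_
  rintro ⟨m, β⟩ ⟨hm, hβ⟩
  simp only at hm hβ
  obtain ⟨hB, hr⟩ := hP β hβ
  obtain ⟨X, ι, Y, rfl, hX, hι, hY, h3, h4⟩ := exists_triple_r hB.br (m := a + m) (by omega)
  have hT : IsT (X, ι, Y) := ⟨hX, hι, hY⟩
  obtain ⟨h5, h6⟩ := hPQ _ (a + m) hT (by omega) (by omega) h3 h4 hβ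
  refine ⟨(a + m - wd Y, (X, ι, Y)), ⟨?_, hT, h5⟩, ?_, h6⟩
  · simp only; omega
  · simp only [Prod.mk.injEq]
    exact ⟨by omega, rfl⟩

/-- no irreducible piece at medium distance from the end is long -/
def T1 (q : ℕ) (β : List St) : Prop := ∃ Y ι X, β = Y ++ (ι ++ X) ∧ IsB Y ∧ Irr ι ∧ IsB X ∧
  wd X < 4 * q ∧ 4 * q ≤ wd ι + wd X ∧ wd ι + wd X ≤ 6 * q

/-- a long irreducible piece near the end -/
def T2 (q : ℕ) (β : List St) : Prop := ∃ Y ι X, β = Y ++ (ι ++ X) ∧ IsB Y ∧ Irr ι ∧ IsB X ∧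
  wd X < 4 * q ∧ 6 * q < wd ι + wd X

lemma types {q : ℕ} (hq : 1 ≤ q) {β : List St} (hβ : IsB β) (h : 4 * q ≤ wd β) :
    T1 q β ∨ T2 q β := by
  obtain ⟨Y, ι, X, h1, h2, h3, h4, h5, h6⟩ := exists_triple_r hβ.br (m := 4 * q - 1) (by omega)
  rcases Nat.lt_or_ge (6 * q) (wd ι + wd X) with h7 | h7
  · exact Or.inr ⟨Y, ι, X, h1, h2, h3, h4, by omega, h7⟩
  · exact Or.inl ⟨Y, ι, X, h1, h2, h3, h4, by omega, by omega, h7⟩

/-- long tails with long first irreducible piece -/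
def TT (q : ℕ) (T : List St) : Prop := IsB T ∧ 4 * q ≤ wd T ∧ wd T ≤ 16 * q ∧ FB (2 * q) T

/-- long tails -/
def TX (q : ℕ) (X : List St) : Prop := IsB X ∧ 4 * q ≤ wd X ∧ wd X ≤ 8 * q

/-- weighted sum over the tails before the fold -/
noncomputable def Md (q : ℕ) (β : List St) : PS :=
  fs (fun T => ii (TT q T ∧ PP T β) * xl T) +
    cst (((2 * q : ℕ) : ℝ≥0∞)⁻¹) * (Ks (16 * q) * fs (fun X => ii (TX q X ∧ PP X β) * xl X))

lemma Md_pre (q : ℕ) {Y b : List St} (hY : IsB Y) (hb : IsB b) : Md q (Y ++ b) ≤ Md q Y := by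
  unfold Md
  refine add_le_add (fs_mono fun T => ?_) (mul_le_mul' le_rfl (mul_le_mul' le_rfl
    (fs_mono fun X => ?_)))
  · gcongr
    exact ii_mono fun h => ⟨h.1, h.2.pre hY hb⟩
  · gcongr
    exact ii_mono fun h => ⟨h.1, h.2.pre hY hb⟩

/-- the part of the sum over `β'` with a medium renewal level, for a fixed next strand -/
lemma G2_le {q k : ℕ} (hq : 1 ≤ q) (hk : k ≤ 8 * q) (β β'' : List St) (hβ'' : 8 * q ≤ wd β'') :
    fs (fun β' => ii ((((IsB β' ∧ 8 * q ≤ wd β' ∧ wd β' < 8 * q + k) ∧ CD β β') ∧ T1 q β') ∧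
      CD β' β'') * xl β') ≤
    Nc (8 * q) (16 * q) β * (cst (((2 * q : ℕ) : ℝ≥0∞)⁻¹) *
      (Ks (16 * q) * fs (fun X => ii (TX q X ∧ PP X β'') * xl X))) := by
  have h1 := mark_int (6 * q) (2 * q)
    (fun β' => (((IsB β' ∧ 8 * q ≤ wd β' ∧ wd β' < 8 * q + k) ∧ CD β β') ∧ T1 q β') ∧ CD β' β'')
    (fun t => (wd t.1 ≤ 16 * q ∧ CC (8 * q) β t.1) ∧ wd t.2.1 ≤ 16 * q ∧
      ((4 * q ≤ wd t.2.2 ∧ wd t.2.2 ≤ 8 * q) ∧ PP t.2.2 β''))
    (fun β' => xl β') (fun t => xl t.1 * (xl t.2.1 * xl t.2.2)) ?_ ?_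
  · have e : fs (fun t : L3 => ii (IsT t ∧ ((wd t.1 ≤ 16 * q ∧ CC (8 * q) β t.1) ∧
        wd t.2.1 ≤ 16 * q ∧ ((4 * q ≤ wd t.2.2 ∧ wd t.2.2 ≤ 8 * q) ∧ PP t.2.2 β''))) *
        (cst (wd t.2.1 : ℝ≥0∞) * (xl t.1 * (xl t.2.1 * xl t.2.2)))) =
        Nc (8 * q) (16 * q) β * (Ks (16 * q) * fs (fun X => ii (TX q X ∧ PP X β'') * xl X)) := by
      unfold Nc Ks TX
      rw [fs_mul_fs, fs_mul_fs]
      apply fs_congr
      rintro ⟨a, b, c⟩
      simp only [IsT, ii_and]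
      ring
    rw [e] at h1
    set S := fs (fun β' => ii ((((IsB β' ∧ 8 * q ≤ wd β' ∧ wd β' < 8 * q + k) ∧ CD β β') ∧
      T1 q β') ∧ CD β' β'') * xl β') with hS
    calc S = cst (((2 * q : ℕ) : ℝ≥0∞)⁻¹) * (cst ((2 * q : ℕ) : ℝ≥0∞) * S) := by
          rw [← mul_assoc, cst_inv_mul (by omega), one_mul]
      _ ≤ cst (((2 * q : ℕ) : ℝ≥0∞)⁻¹) * (Nc (8 * q) (16 * q) β * (Ks (16 * q) *
          fs (fun X => ii (TX q X ∧ PP X β'') * xl X))) := mul_le_mul' le_rfl h1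
      _ = _ := by ring
  · rintro β' ⟨⟨⟨⟨h2, h3, h4⟩, h5⟩, h6⟩, h7⟩
    exact ⟨h2, by omega⟩
  · rintro t m ht ha hb h2 h3 ⟨⟨⟨⟨h4, h5, h6⟩, h7⟩, ⟨Y, ι, X, g1, g2, g3, g4, g5, g6, g7⟩⟩, h8⟩
    have hw := ht.wd
    have h9 : 4 * q ≤ wd t.2.2 := by
      have h10 : wd (ι ++ X) = wd ι + wd X := wd_append g3.1 g4
      have h11 := no_cut g2 (g3.1.append g4) ht.1 ht.2.1 ht.2.2 (show Y ++ (ι ++ X) = _ from g1.symm)
      by_contra hcon
      exact h11 ⟨by omega, by omega⟩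
    refine ⟨⟨⟨by omega, ?_⟩, by omega, ⟨h9, by omega⟩, ?_⟩, ?_⟩
    · have := h7.cc h5
      unfold cat3 at this
      exact this.pre ht.1 (ht.2.1.1.append ht.2.2)
    · refine h8 (t.1 ++ t.2.1) t.2.2 (ht.1.append ht.2.1.1) ht.2.2 ?_ (by omega)
      unfold cat3
      rw [List.append_assoc]
    · unfold cat3
      rw [xl_append, xl_append]

/-- increments of the first kind -/
noncomputable def ed (q l : ℕ) : PS :=
  fs (fun p : LL => ii (((Irr p.1 ∧ 4 * q ≤ wd p.1 ∧ wd p.1 ≤ 16 * q) ∧ (IsB p.2 ∧ wd p.2 ≤ 8 * q)) ∧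
    wd p.1 + wd p.2 = 8 * q + l) * (xl p.1 * (xl p.2 * Nc (8 * q) (16 * q) p.2)))

/-- increments of the second kind -/
noncomputable def gd (q l : ℕ) : PS :=
  fs (fun β => ii (IsBr (8 * q + l) β) * (xl β * (Nc (8 * q) (16 * q) β * Md q β)))

end Pool.Agent.TH546.L2
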