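import Pool.Agent.TH546.L2.Chain2

/-!
The recursion inequality for chains.
-/

set_option linter.unusedSectionVars false

namespace Pool.Agent.TH546.L2

open Pool.Agent.W387.S hiding PU_le PU
open H982
open scoped ENNReal
open PowerSeries

variable [L : H982.Lat]

open scoped Classical in
/-- a chosen decomposition of a bridge of type `T2` -/
noncomputable def tT (q : ℕ) (β : List St) : L3 :=
  if h : T2 q β then (h.choose, h.choose_spec.choose, h.choose_spec.choose_spec.choose)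
  else ([], [], [])

lemma tT_spec {q : ℕ} {β : List St} (h : T2 q β) :
    β = (tT q β).1 ++ ((tT q β).2.1 ++ (tT q β).2.2) ∧ IsB (tT q β).1 ∧ Irr (tT q β).2.1 ∧
      IsB (tT q β).2.2 ∧ wd (tT q β).2.2 < 4 * q ∧
      6 * q < wd (tT q β).2.1 + wd (tT q β).2.2 := by
  have h1 := h.choose_spec.choose_spec.choose_spec
  unfold tT
  rw [dif_pos h]
  exact h1

/-- the chains after `T` with first strand of width `r + l` extendable with the whole of `T` -/
noncomputable def pd (r l : ℕ) (T : List St) : PS :=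
  fs (fun β => ii (IsBr (r + l) β ∧ PP T β) * (xl β * Rd r l β))

lemma sum_ii_le (n m : ℕ) (f : ℕ → PS) :
    ∑ l ∈ Finset.range n, ii (l < m) * f l ≤ ∑ l ∈ Finset.range m, f l := by
  classical
  have h1 : ∀ l ∈ Finset.range n, ii (l < m) * f l = if l < m then f l else 0 := by
    intro l _
    by_cases h : l < m
    · rw [ii_of h, if_pos h, one_mul]
    · rw [ii_not h, if_neg h, zero_mul]
  rw [Finset.sum_congr rfl h1, ← Finset.sum_filter]
  refine Finset.sum_le_sum_of_subset ?_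
  intro l hl
  rw [Finset.mem_filter] at hl
  exact Finset.mem_range.2 hl.2

lemma sum_mono_range {n k : ℕ} (h : n ≤ k) (f : ℕ → PS) :
    ∑ l ∈ Finset.range n, f l ≤ ∑ l ∈ Finset.range k, f l :=
  Finset.sum_le_sum_of_subset (Finset.range_mono h)

lemma split_sum {r k : ℕ} {Y T : List St} (hY : IsB Y) (hT : IsB T)
    (hk : wd (Y ++ T) < r + k) :
    ∑ l ∈ Finset.range (wd (Y ++ T) - r), sd r l (Y ++ T) ≤
      ii (r < wd T) * Rd r (wd T - r) T + ∑ l ∈ Finset.range k, pd r l T := by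
  have h1 : ∀ l ∈ Finset.range (wd (Y ++ T) - r), sd r l (Y ++ T) ≤
      ii (l < wd T - r) * sd r l T + pd r l T := by
    intro l _
    rcases Nat.lt_or_ge l (wd T - r) with h | h
    · rw [ii_of h, one_mul]
      exact (sd_suf r l Y T hY).trans le_self_add
    · refine le_trans ?_ le_add_self
      apply fs_mono
      intro β
      gcongr
      refine ii_mono fun h' => ⟨h'.1, h'.2 Y T hY hT rfl ?_⟩
      rw [h'.1.wd]
      omega
  refine (Finset.sum_le_sum h1).trans ?_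
  rw [Finset.sum_add_distrib]
  refine add_le_add ?_ (sum_mono_range (by omega) _)
  refine (sum_ii_le _ _ _).trans ?_
  by_cases h : r < wd T
  · rw [ii_of h, one_mul, Rd_eq]
    exact le_add_self
  · rw [show wd T - r = 0 by omega, Finset.range_zero, Finset.sum_empty]
    exact zero_le

lemma swap_sum (r k : ℕ) (A : List St → Prop) (R : List St → List St → Prop) :
    fs (fun T => ii (A T) * (xl T * ∑ l ∈ Finset.range k,
      fs (fun β => ii (IsBr (r + l) β ∧ R T β) * (xl β * Rd r l β)))) =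
    ∑ l ∈ Finset.range k, fs (fun β => ii (IsBr (r + l) β) * (xl β * (Rd r l β *
      fs (fun T => ii (A T ∧ R T β) * xl T)))) := by
  have h1 : ∀ T, ii (A T) * (xl T * ∑ l ∈ Finset.range k,
      fs (fun β => ii (IsBr (r + l) β ∧ R T β) * (xl β * Rd r l β))) =
      ∑ l ∈ Finset.range k, fs (fun β => ii (A T) * (xl T *
        (ii (IsBr (r + l) β ∧ R T β) * (xl β * Rd r l β)))) := by
    intro T
    rw [Finset.mul_sum, Finset.mul_sum]
    refine Finset.sum_congr rfl (fun l _ => ?_)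
    rw [mul_fs, mul_fs]
  rw [fs_congr h1, fs_sum]
  refine Finset.sum_congr rfl (fun l _ => ?_)
  rw [fs_comm]
  apply fs_congr
  intro β
  rw [mul_fs, mul_fs, mul_fs]
  apply fs_congr
  intro T
  rw [ii_and (IsBr (r + l) β), ii_and (A T)]
  ring

lemma sum_level (r k : ℕ) {ι : Type*} (A : ι → Prop) (s : ι → ℕ) (F : ι → PS) (P : ℕ → PS) :
    fs (fun p => ii (A p ∧ (r ≤ s p ∧ s p < r + k)) * (F p * P (s p - r))) ≤
    ∑ l ∈ Finset.range k, fs (fun p => ii (A p ∧ s p = r + l) * F p) * P l := by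
  have e : ∑ l ∈ Finset.range k, fs (fun p => ii (A p ∧ s p = r + l) * F p) * P l =
      fs (fun p => ∑ l ∈ Finset.range k, ii (A p ∧ s p = r + l) * F p * P l) := by
    rw [fs_sum]
    refine Finset.sum_congr rfl (fun l _ => ?_)
    rw [fs_mul]
  rw [e]
  apply fs_mono
  intro p
  by_cases h : A p ∧ (r ≤ s p ∧ s p < r + k)
  · rw [ii_of h, one_mul]
    have h2 : s p - r ∈ Finset.range k := by
      rw [Finset.mem_range]; omega
    have h3 := Finset.single_le_sum (f := fun l => ii (A p ∧ s p = r + l) * F p * P l)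
      (fun _ _ => zero_le) h2
    refine le_trans ?_ h3
    rw [ii_of (p := A p ∧ s p = r + (s p - r)) ⟨h.1, by omega⟩, one_mul]
  · rw [ii_not h, zero_mul]
    exact zero_le

/-- the contribution of the straddling strands -/
lemma A2V_le {q k : ℕ} (hk : k ≤ 8 * q) (P : ℕ → PS)
    (hI : ∀ l < k, ∀ β, IsB β → Rd (8 * q) l β ≤ Nc (8 * q) (16 * q) β * P l) (β : List St) :
    fs (fun β' => ii (((IsB β' ∧ 8 * q ≤ wd β' ∧ wd β' < 8 * q + k) ∧ CD β β') ∧ T2 q β') *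
      (xl β' * (ii (8 * q < wd ((tT q β').2.1 ++ (tT q β').2.2)) *
        Rd (8 * q) (wd ((tT q β').2.1 ++ (tT q β').2.2) - 8 * q)
          ((tT q β').2.1 ++ (tT q β').2.2)))) ≤
    Nc (8 * q) (16 * q) β * ∑ l ∈ Finset.range k, ed q l * P l := by
  have e1 : fs (fun β' => ii (((IsB β' ∧ 8 * q ≤ wd β' ∧ wd β' < 8 * q + k) ∧ CD β β') ∧ T2 q β') *
      (xl β' * (ii (8 * q < wd ((tT q β').2.1 ++ (tT q β').2.2)) *
        Rd (8 * q) (wd ((tT q β').2.1 ++ (tT q β').2.2) - 8 * q)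
          ((tT q β').2.1 ++ (tT q β').2.2)))) =
      fs (fun β' => ii ((((IsB β' ∧ 8 * q ≤ wd β' ∧ wd β' < 8 * q + k) ∧ CD β β') ∧ T2 q β') ∧
        8 * q < wd ((tT q β').2.1 ++ (tT q β').2.2)) *
      (xl β' * (Rd (8 * q) (wd ((tT q β').2.1 ++ (tT q β').2.2) - 8 * q)
          ((tT q β').2.1 ++ (tT q β').2.2)))) := by
    apply fs_congr
    intro β'
    rw [ii_and (_ ∧ T2 q β')]
    ring
  rw [e1]
  refine (fs_cover _ (fun t : L3 => (IsT t ∧ (wd t.1 ≤ 16 * q ∧ CC (8 * q) β t.1)) ∧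
    (4 * q ≤ wd t.2.1 ∧ wd t.2.1 ≤ 16 * q ∧ wd t.2.2 ≤ 8 * q) ∧
    (8 * q ≤ wd t.2.1 + wd t.2.2 ∧ wd t.2.1 + wd t.2.2 < 8 * q + k)) _
    (fun t => xl t.1 * ((xl t.2.1 * (xl t.2.2 * Nc (8 * q) (16 * q) t.2.2)) *
      P (wd t.2.1 + wd t.2.2 - 8 * q)))
    (fun t : L3 => cat3 t) ?_).trans ?_
  · rintro β' ⟨⟨⟨⟨h1, h2, h3⟩, h4⟩, h5⟩, h6⟩
    obtain ⟨g1, g2, g3, g4, g5, g6⟩ := tT_spec h5
    obtain ⟨Y, hYd⟩ : ∃ Y, (tT q β').1 = Y := ⟨_, rfl⟩
    obtain ⟨ι, hιd⟩ : ∃ ι, (tT q β').2.1 = ι := ⟨_, rfl⟩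
    obtain ⟨X, hXd⟩ : ∃ X, (tT q β').2.2 = X := ⟨_, rfl⟩
    rw [hYd, hιd, hXd] at g1
    rw [hYd] at g2
    rw [hιd] at g3
    rw [hXd] at g4 g5
    rw [hιd, hXd] at g6 h6 ⊢
    have hwT : wd (ι ++ X) = wd ι + wd X := wd_append g3.1 g4
    have hw : wd β' = wd Y + (wd ι + wd X) := by
      rw [g1, wd_append g2 (g3.1.append g4), hwT]
    rw [hwT] at h6 ⊢
    refine ⟨(Y, ι, X), ⟨⟨⟨g2, g3, g4⟩, by simp only; omega, ?_⟩, ⟨by simp only; omega,
      by simp only; omega, by simp only; omega⟩, ⟨by simp only; omega, by simp only; omega⟩⟩,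
      g1.symm, ?_⟩
    · have := h4.cc h2
      rw [g1] at this
      exact this.pre g2 (g3.1.append g4)
    · simp only
      rw [g1, xl_append, xl_append]
      have h7 : Rd (8 * q) (wd ι + wd X - 8 * q) (ι ++ X) ≤
          Nc (8 * q) (16 * q) X * P (wd ι + wd X - 8 * q) :=
        (Rd_suf _ _ ι X g3.1).trans (hI _ (by omega) X g4)
      calc xl Y * (xl ι * xl X) * Rd (8 * q) (wd ι + wd X - 8 * q) (ι ++ X)
          ≤ xl Y * (xl ι * xl X) * (Nc (8 * q) (16 * q) X * P (wd ι + wd X - 8 * q)) :=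
            mul_le_mul' le_rfl h7
        _ = _ := by ring
  · have e2 : fs (fun t : L3 => ii ((IsT t ∧ (wd t.1 ≤ 16 * q ∧ CC (8 * q) β t.1)) ∧
        (4 * q ≤ wd t.2.1 ∧ wd t.2.1 ≤ 16 * q ∧ wd t.2.2 ≤ 8 * q) ∧
        (8 * q ≤ wd t.2.1 + wd t.2.2 ∧ wd t.2.1 + wd t.2.2 < 8 * q + k)) *
        (xl t.1 * ((xl t.2.1 * (xl t.2.2 * Nc (8 * q) (16 * q) t.2.2)) *
        P (wd t.2.1 + wd t.2.2 - 8 * q)))) =
      Nc (8 * q) (16 * q) β * fs (fun p : LL => ii (((Irr p.1 ∧ 4 * q ≤ wd p.1 ∧ wd p.1 ≤ 16 * q) ∧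
        (IsB p.2 ∧ wd p.2 ≤ 8 * q)) ∧ (8 * q ≤ wd p.1 + wd p.2 ∧ wd p.1 + wd p.2 < 8 * q + k)) *
        ((xl p.1 * (xl p.2 * Nc (8 * q) (16 * q) p.2)) * P (wd p.1 + wd p.2 - 8 * q))) := by
      unfold Nc
      rw [fs_mul_fs]
      apply fs_congr
      rintro ⟨a, b, c⟩
      simp only [IsT, ii_and]
      ring
    rw [e2]
    refine mul_le_mul' le_rfl ?_
    exact sum_level (8 * q) k (fun p : LL => ((Irr p.1 ∧ 4 * q ≤ wd p.1 ∧ wd p.1 ≤ 16 * q) ∧
        (IsB p.2 ∧ wd p.2 ≤ 8 * q))) (fun p => wd p.1 + wd p.2)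
        (fun p => xl p.1 * (xl p.2 * Nc (8 * q) (16 * q) p.2)) P

/-- the contribution of the strands with a long irreducible piece which are extendable -/
lemma A2G_le {q k : ℕ} (hk : k ≤ 8 * q) (β : List St) :
    fs (fun β' => ii (((IsB β' ∧ 8 * q ≤ wd β' ∧ wd β' < 8 * q + k) ∧ CD β β') ∧ T2 q β') *
      (xl β' * ∑ l ∈ Finset.range k, pd (8 * q) l ((tT q β').2.1 ++ (tT q β').2.2))) ≤
    Nc (8 * q) (16 * q) β * ∑ l ∈ Finset.range k, fs (fun β'' => ii (IsBr (8 * q + l) β'') *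
      (xl β'' * (Rd (8 * q) l β'' * fs (fun T => ii (TT q T ∧ PP T β'') * xl T)))) := by
  rw [← swap_sum (8 * q) k (TT q) PP]
  refine (fs_cover _ (fun t : LL => (IsB t.1 ∧ wd t.1 ≤ 16 * q ∧ CC (8 * q) β t.1) ∧ TT q t.2) _
    (fun t => xl t.1 * (xl t.2 * ∑ l ∈ Finset.range k, pd (8 * q) l t.2))
    (fun t : LL => t.1 ++ t.2) ?_).trans ?_
  · rintro β' ⟨⟨⟨h1, h2, h3⟩, h4⟩, h5⟩
    obtain ⟨g1, g2, g3, g4, g5, g6⟩ := tT_spec h5
    obtain ⟨Y, hYd⟩ : ∃ Y, (tT q β').1 = Y := ⟨_, rfl⟩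
    obtain ⟨ι, hιd⟩ : ∃ ι, (tT q β').2.1 = ι := ⟨_, rfl⟩
    obtain ⟨X, hXd⟩ : ∃ X, (tT q β').2.2 = X := ⟨_, rfl⟩
    rw [hYd, hιd, hXd] at g1
    rw [hYd] at g2
    rw [hιd] at g3
    rw [hXd] at g4 g5
    rw [hιd, hXd] at g6 ⊢
    have hwT : wd (ι ++ X) = wd ι + wd X := wd_append g3.1 g4
    have hw : wd β' = wd Y + (wd ι + wd X) := by
      rw [g1, wd_append g2 (g3.1.append g4), hwT]
    refine ⟨(Y, ι ++ X), ⟨⟨g2, by simp only; omega, ?_⟩, g3.1.append g4, by simp only; omega,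
      by simp only; omega, ⟨ι, X, rfl, g3, g4, by omega⟩⟩, g1.symm, ?_⟩
    · have := h4.cc h2
      rw [g1] at this
      exact this.pre g2 (g3.1.append g4)
    · simp only
      rw [← mul_assoc (xl Y), ← xl_append, ← g1]
  · apply le_of_eq
    unfold Nc pd
    rw [fs_mul_fs]
    apply fs_congr
    rintro ⟨a, b⟩
    simp only [ii_and]
    ring

/-- the contribution of the other strands -/
lemma A1_le {q k : ℕ} (hq : 1 ≤ q) (hk : k ≤ 8 * q) (β : List St) :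
    fs (fun β' => ii (((IsB β' ∧ 8 * q ≤ wd β' ∧ wd β' < 8 * q + k) ∧ CD β β') ∧ T1 q β') *
      (xl β' * ∑ l ∈ Finset.range k, sd (8 * q) l β')) ≤
    Nc (8 * q) (16 * q) β * ∑ l ∈ Finset.range k, fs (fun β'' => ii (IsBr (8 * q + l) β'') *
      (xl β'' * (Rd (8 * q) l β'' * (cst (((2 * q : ℕ) : ℝ≥0∞)⁻¹) *
      (Ks (16 * q) * fs (fun X => ii (TX q X ∧ PP X β'') * xl X)))))) := by
  unfold sd
  rw [swap_sum (8 * q) k (fun β' => (((IsB β' ∧ 8 * q ≤ wd β' ∧ wd β' < 8 * q + k) ∧ CD β β') ∧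
    T1 q β')) CD, Finset.mul_sum]
  refine Finset.sum_le_sum (fun l _ => ?_)
  rw [mul_fs]
  apply fs_mono
  intro β''
  by_cases h : IsBr (8 * q + l) β''
  · rw [ii_of h, one_mul, one_mul]
    have h2 := G2_le hq hk β β'' (by rw [h.wd]; omega)
    calc _ ≤ xl β'' * (Rd (8 * q) l β'' * (Nc (8 * q) (16 * q) β *
          (cst (((2 * q : ℕ) : ℝ≥0∞)⁻¹) *
          (Ks (16 * q) * fs (fun X => ii (TX q X ∧ PP X β'') * xl X))))) := by gcongr
      _ = _ := by ring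
  · rw [ii_not h, zero_mul]
    exact zero_le

/-- **The recursion inequality.** -/
theorem Rd_main {q k : ℕ} (hq : 1 ≤ q) (hk : k ≤ 8 * q) (P : ℕ → PS)
    (hI : ∀ l < k, ∀ β, IsB β → Rd (8 * q) l β ≤ Nc (8 * q) (16 * q) β * P l) (β : List St) :
    Rd (8 * q) k β ≤ Nc (8 * q) (16 * q) β *
      (2 + ∑ l ∈ Finset.range k, (ed q l + gd q l) * P l) := by
  have h0 := Rd_le_one_add (8 * q) k β
  set N := Nc (8 * q) (16 * q) β with hN
  have h1 : fs (fun β' => ii ((IsB β' ∧ 8 * q ≤ wd β' ∧ wd β' < 8 * q + k) ∧ CD β β') *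
      (xl β' * Rd (8 * q) (wd β' - 8 * q) β')) ≤
      fs (fun β' => ii ((IsB β' ∧ 8 * q ≤ wd β' ∧ wd β' < 8 * q + k) ∧ CD β β') * xl β') +
      (fs (fun β' => ii (((IsB β' ∧ 8 * q ≤ wd β' ∧ wd β' < 8 * q + k) ∧ CD β β') ∧ T1 q β') *
        (xl β' * ∑ l ∈ Finset.range k, sd (8 * q) l β')) +
      (fs (fun β' => ii (((IsB β' ∧ 8 * q ≤ wd β' ∧ wd β' < 8 * q + k) ∧ CD β β') ∧ T2 q β') *
        (xl β' * (ii (8 * q < wd ((tT q β').2.1 ++ (tT q β').2.2)) *
          Rd (8 * q) (wd ((tT q β').2.1 ++ (tT q β').2.2) - 8 * q)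
            ((tT q β').2.1 ++ (tT q β').2.2)))) +
      fs (fun β' => ii (((IsB β' ∧ 8 * q ≤ wd β' ∧ wd β' < 8 * q + k) ∧ CD β β') ∧ T2 q β') *
        (xl β' * ∑ l ∈ Finset.range k, pd (8 * q) l ((tT q β').2.1 ++ (tT q β').2.2))))) := by
    rw [← fs_add, ← fs_add, ← fs_add]
    apply fs_mono
    intro β'
    by_cases h : (IsB β' ∧ 8 * q ≤ wd β' ∧ wd β' < 8 * q + k) ∧ CD β β'
    · rw [ii_of h, one_mul, one_mul, Rd_eq, mul_add, mul_one]
      refine add_le_add le_rfl ?_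
      rcases types hq h.1.1 (by omega) with h2 | h2
      · refine le_trans ?_ le_self_add
        rw [ii_of (p := ((IsB β' ∧ 8 * q ≤ wd β' ∧ wd β' < 8 * q + k) ∧ CD β β') ∧ T1 q β')
          ⟨h, h2⟩, one_mul]
        exact mul_le_mul' le_rfl (sum_mono_range (by omega) _)
      · refine le_trans ?_ le_add_self
        rw [ii_of (p := ((IsB β' ∧ 8 * q ≤ wd β' ∧ wd β' < 8 * q + k) ∧ CD β β') ∧ T2 q β')
          ⟨h, h2⟩, one_mul, one_mul, ← mul_add]
        refine mul_le_mul' le_rfl ?_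
        obtain ⟨g1, g2, g3, g4, g5, g6⟩ := tT_spec h2
        have h3 := split_sum (r := 8 * q) (k := k) g2 (g3.1.append g4) (by
          rw [← g1]; exact h.1.2.2)
        rw [← g1] at h3
        exact h3
    · rw [ii_not h, zero_mul]
      exact zero_le
  have h2 : fs (fun β' => ii ((IsB β' ∧ 8 * q ≤ wd β' ∧ wd β' < 8 * q + k) ∧ CD β β') * xl β') ≤
      N := by
    apply fs_mono
    intro β'
    gcongr
    exact ii_mono fun h => ⟨⟨h.1.1, by omega⟩, h.2.cc h.1.2.1⟩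
  have h3 := A1_le hq hk β
  have h4 := A2V_le hk P hI β
  have h5 := A2G_le hk β
  have h6 : ∑ l ∈ Finset.range k, fs (fun β'' => ii (IsBr (8 * q + l) β'') *
      (xl β'' * (Rd (8 * q) l β'' * (cst (((2 * q : ℕ) : ℝ≥0∞)⁻¹) *
      (Ks (16 * q) * fs (fun X => ii (TX q X ∧ PP X β'') * xl X)))))) +
      ∑ l ∈ Finset.range k, fs (fun β'' => ii (IsBr (8 * q + l) β'') *
      (xl β'' * (Rd (8 * q) l β'' * fs (fun T => ii (TT q T ∧ PP T β'') * xl T)))) ≤
      ∑ l ∈ Finset.range k, gd q l * P l := by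
    rw [← Finset.sum_add_distrib]
    refine Finset.sum_le_sum (fun l hl => ?_)
    rw [Finset.mem_range] at hl
    unfold gd
    rw [← fs_add, fs_mul]
    apply fs_mono
    intro β''
    by_cases h : IsBr (8 * q + l) β''
    · rw [ii_of h, one_mul, one_mul, one_mul, ← mul_add, ← mul_add]
      have h7 := hI l hl β'' h.isB
      calc _ = xl β'' * (Rd (8 * q) l β'' * Md q β'') := by unfold Md; ring
        _ ≤ xl β'' * ((Nc (8 * q) (16 * q) β'' * P l) * Md q β'') := by gcongr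
        _ = _ := by ring
    · rw [ii_not h, zero_mul, zero_mul, zero_mul, add_zero, zero_mul]
  have h7 : (1 : PS) ≤ N := one_le_Nc _ _ _
  refine h0.trans ?_
  refine (add_le_add h7 (h1.trans (add_le_add h2 (add_le_add h3 (add_le_add h4 h5))))).trans ?_
  calc _ = N * 2 + N * (∑ l ∈ Finset.range k, ed q l * P l) +
        N * (∑ l ∈ Finset.range k, fs (fun β'' => ii (IsBr (8 * q + l) β'') *
          (xl β'' * (Rd (8 * q) l β'' * (cst (((2 * q : ℕ) : ℝ≥0∞)⁻¹) *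
          (Ks (16 * q) * fs (fun X => ii (TX q X ∧ PP X β'') * xl X)))))) +
          ∑ l ∈ Finset.range k, fs (fun β'' => ii (IsBr (8 * q + l) β'') *
          (xl β'' * (Rd (8 * q) l β'' * fs (fun T => ii (TT q T ∧ PP T β'') * xl T))))) := by
        ring
    _ ≤ N * 2 + N * (∑ l ∈ Finset.range k, ed q l * P l) +
        N * ∑ l ∈ Finset.range k, gd q l * P l := by gcongr
    _ = _ := by
        rw [← mul_add, ← mul_add, add_assoc, ← Finset.sum_add_distrib]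
        congr 2
        refine Finset.sum_congr rfl (fun l _ => ?_)
        ring

end Pool.Agent.TH546.L2
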