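import Pool.Agent.TH546.L2.Sum2
import Pool.Agent.W387.S.Fin3

/-!
The quasi-polynomial bounds with exponent `2`.
-/

set_option linter.unusedSectionVars false

namespace Pool.Agent.TH546.L2

open Pool.Agent.W387.S hiding PU_le PU
open H982
open scoped ENNReal
open PowerSeries

variable [L : H982.Lat]

lemma Ec_le_log (r : ℕ) (hr : 1 ≤ r) {c : ℝ}
    (hc : ((2 + 16 * (Nat.log 2 (2 * r) + 1) : ℕ) : ℝ) ≤ c) :
    Ec r (2 * r) ≤ cst (ENNReal.ofReal c) * Us (16 * r) := by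
  intro N
  rw [coeff_cst_mul]
  have h0 := coeff_Ec_le N r (2 * r) hr (by omega)
  rw [show 8 * (2 * r) = 16 * r by ring] at h0
  refine h0.trans (mul_le_mul' ?_ le_rfl)
  rw [← ENNReal.ofReal_natCast]
  exact ENNReal.ofReal_le_ofReal hc

lemma two_pow_le_exp (i : ℕ) : (2 : ℝ) ^ i ≤ Real.exp i := by
  have h : (2 : ℝ) ≤ Real.exp 1 := by
    have := Real.exp_one_gt_d9; linarith
  calc (2 : ℝ) ^ i ≤ (Real.exp 1) ^ i := pow_le_pow_left₀ (by norm_num) h i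
    _ = _ := by rw [← Real.exp_nat_mul, mul_one]

/-- the bound at all dyadic scales -/
theorem scale_all (i : ℕ) :
    Nm (ENNReal.ofReal (Real.exp (300000000 * ((i : ℝ) + 1)))) (Rr (2 ^ i) (2 ^ i) []) := by
  have hi0 : (0 : ℝ) ≤ i := Nat.cast_nonneg i
  have h2i := two_pow_le_exp i
  have h2p : (1 : ℝ) ≤ 2 ^ i := one_le_pow₀ (by norm_num)
  have he1 : (2.7 : ℝ) ≤ Real.exp 1 := by
    have := Real.exp_one_gt_d9; linarith
  have he2 : (6 : ℝ) ≤ Real.exp 2 := by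
    calc (6 : ℝ) ≤ 2.7 ^ 2 := by norm_num
      _ ≤ (Real.exp 1) ^ 2 := by gcongr
      _ = _ := by rw [← Real.exp_nat_mul]; norm_num
  have he3 : (15 : ℝ) ≤ Real.exp 3 := by
    calc (15 : ℝ) ≤ 2.7 ^ 3 := by norm_num
      _ ≤ (Real.exp 1) ^ 3 := by gcongr
      _ = _ := by rw [← Real.exp_nat_mul]; norm_num
  rcases Nat.lt_or_ge i 3 with hi | hi
  · -- small scales
    have hr : 1 ≤ 2 ^ i := Nat.one_le_two_pow
    have hlog : Nat.log 2 (2 * 2 ^ i) ≤ 3 := by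
      have : 2 * 2 ^ i = 2 ^ (i + 1) := by rw [pow_succ]; ring
      rw [this, Nat.log_pow (by norm_num)]
      omega
    have hE : Ec (2 ^ i) (2 * 2 ^ i) ≤ cst (ENNReal.ofReal 66) * Us (16 * 2 ^ i) := by
      refine Ec_le_log _ hr ?_
      have : (2 + 16 * (Nat.log 2 (2 * 2 ^ i) + 1) : ℕ) ≤ 66 := by omega
      exact_mod_cast this
    intro N
    have h1 := scale_bound_r (N := N) (r := 2 ^ i) hr (c := 66) (by norm_num) (LeT.of_le hE)
    have h2 : NmT N (ENNReal.ofReal (Real.exp (300000000 * ((i : ℝ) + 1))))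
        (Rr (2 ^ i) (2 ^ i) []) := by
      refine (h1.mono (Rr_le_Rc _ _ _ (Or.inl rfl))).weaken (ENNReal.ofReal_le_ofReal ?_)
      push_cast
      calc (2 * (2 : ℝ) ^ i + 1) * 5 * Real.exp (1024 * 66 ^ 2)
          ≤ (15 * Real.exp i) * Real.exp (1024 * 66 ^ 2) := by
            refine mul_le_mul_of_nonneg_right ?_ (Real.exp_pos _).le
            linarith
        _ ≤ (Real.exp 3 * Real.exp i) * Real.exp (1024 * 66 ^ 2) := by gcongr
        _ = Real.exp (3 + i + 1024 * 66 ^ 2) := by rw [← Real.exp_add, ← Real.exp_add]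
        _ ≤ _ := by
            apply Real.exp_le_exp.mpr
            norm_num
            linarith
    exact h2 N le_rfl
  · -- large scales
    obtain ⟨j, rfl⟩ : ∃ j, i = j + 3 := ⟨i - 3, by omega⟩
    have e8 : 2 ^ (j + 3) = 8 * 2 ^ j := by rw [pow_add]; ring
    have hq : 1 ≤ 2 ^ j := Nat.one_le_two_pow
    have hlog : Nat.log 2 (2 * (8 * 2 ^ j)) = j + 4 := by
      have : 2 * (8 * 2 ^ j) = 2 ^ (j + 4) := by rw [pow_add]; ring
      rw [this, Nat.log_pow (by norm_num)]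
    have hE := Ec_le_log (8 * 2 ^ j) (by omega) (c := 50 * (((j + 3 : ℕ) : ℝ) + 1)) (by
      rw [hlog]
      push_cast
      push_cast at hi0
      linarith)
    rw [show 2 * (8 * 2 ^ j) = 16 * 2 ^ j by ring,
      show 16 * (8 * 2 ^ j) = 128 * 2 ^ j by ring] at hE
    have h1 := scale_bound2 hq (c := 50 * (((j + 3 : ℕ) : ℝ) + 1)) (by positivity) hE
    rw [← e8] at h1
    refine h1.weaken (ENNReal.ofReal_le_ofReal ?_)
    have e8' : (8 : ℝ) * ((2 ^ j : ℕ) : ℝ) = 2 ^ (j + 3) := by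
      push_cast
      rw [pow_add]; ring
    rw [e8']
    calc (2 * (2 : ℝ) ^ (j + 3) + 1) * 2 * Real.exp (4202624 * (50 * (((j + 3 : ℕ) : ℝ) + 1)))
        ≤ (6 * Real.exp ((j + 3 : ℕ) : ℝ)) *
          Real.exp (4202624 * (50 * (((j + 3 : ℕ) : ℝ) + 1))) := by
          refine mul_le_mul_of_nonneg_right ?_ (Real.exp_pos _).le
          linarith
      _ ≤ (Real.exp 2 * Real.exp ((j + 3 : ℕ) : ℝ)) *
          Real.exp (4202624 * (50 * (((j + 3 : ℕ) : ℝ) + 1))) := by gcongr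
      _ = Real.exp (2 + ((j + 3 : ℕ) : ℝ) + 4202624 * (50 * (((j + 3 : ℕ) : ℝ) + 1))) := by
          rw [← Real.exp_add, ← Real.exp_add]
      _ ≤ _ := by
          apply Real.exp_le_exp.mpr
          linarith

theorem all_scales2 (M : ℕ) :
    Nm (ENNReal.ofReal (Real.exp (300000000 * (M : ℝ) ^ 2))) (Rr 1 (2 ^ M - 1) []) := by
  have h1 : Nm (∏ i ∈ Finset.range M, ENNReal.ofReal (Real.exp (300000000 * ((i : ℝ) + 1))))
      (Rr 1 (2 ^ M - 1) []) :=
    Nm.mono (Nm.prod _ fun i _ => scale_all i) (Rr_prod M)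
  refine h1.weaken ?_
  rw [← ENNReal.ofReal_prod_of_nonneg (fun i _ => (Real.exp_pos _).le), ← Real.exp_sum]
  apply ENNReal.ofReal_le_ofReal
  apply Real.exp_le_exp.mpr
  calc ∑ i ∈ Finset.range M, 300000000 * ((i : ℝ) + 1)
      ≤ ∑ i ∈ Finset.range M, 300000000 * (M : ℝ) := by
        refine Finset.sum_le_sum (fun i hi => ?_)
        rw [Finset.mem_range] at hi
        have : (i : ℝ) + 1 ≤ M := by exact_mod_cast hi
        linarith
    _ = _ := by
        rw [Finset.sum_const, Finset.card_range, nsmul_eq_mul]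
        ring

theorem hh_le2 {N : ℕ} (hN : 2 ≤ N) :
    hh N ≤ ENNReal.ofReal (Real.exp (4800000000 * Real.log N ^ 2)) * bn N := by
  have hNr : (2 : ℝ) ≤ N := by exact_mod_cast hN
  have hl2 := log_two_gt'
  have hlN : Real.log 2 ≤ Real.log N := Real.log_le_log (by norm_num) hNr
  obtain ⟨M, hMdef⟩ : ∃ M, M = Nat.log 2 N + 1 := ⟨_, rfl⟩
  have hM1 : N < 2 ^ M := by rw [hMdef]; exact Nat.lt_pow_succ_log_self (by norm_num) N
  have h1 := hh_le_of_NmT (N := N) (by omega) (M := M) (by omega) ((all_scales2 M).toT N)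
  refine h1.trans (mul_le_mul' (ENNReal.ofReal_le_ofReal (Real.exp_le_exp.mpr ?_)) le_rfl)
  have hM3 : (M : ℝ) ≤ 4 * Real.log N := by
    have h2 : ((Nat.log 2 N : ℕ) : ℝ) * Real.log 2 ≤ Real.log N := by
      rw [← Real.log_pow]
      apply Real.log_le_log (by positivity)
      exact_mod_cast Nat.pow_log_le_self 2 (by omega : N ≠ 0)
    rw [hMdef]
    push_cast
    nlinarith
  have hM0 : (0 : ℝ) ≤ M := Nat.cast_nonneg M
  calc (300000000 : ℝ) * (M : ℝ) ^ 2 ≤ 300000000 * (4 * Real.log N) ^ 2 := by gcongr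
    _ = _ := by ring

/-- **Half-plane walks are at most `exp (K (log n)^2)` times as numerous as bridges.** -/
theorem RB2 : ∃ K : ℝ, 0 ≤ K ∧ RB K 2 := by
  obtain ⟨K₁, hK₁, h1⟩ := hh_small
  refine ⟨K₁ + 4800000000, by positivity, fun N => ?_⟩
  set l : ℝ := 1 + Real.log ((N : ℝ) + 1) with hl
  have hl1 : 1 ≤ l := ell_ge_one N
  have hlm : 1 ≤ l ^ 2 := one_le_pow₀ hl1
  rcases Nat.lt_or_ge N 2 with hN | hN
  · refine (h1 N (by omega)).trans
      (mul_le_mul' (ENNReal.ofReal_le_ofReal (Real.exp_le_exp.mpr ?_)) le_rfl)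
    nlinarith
  · have hNr : (2 : ℝ) ≤ N := by exact_mod_cast hN
    have hlog0 : 0 ≤ Real.log N := Real.log_nonneg (by linarith)
    have hlogl : Real.log N ≤ l := by
      have : Real.log (N : ℝ) ≤ Real.log ((N : ℝ) + 1) :=
        Real.log_le_log (by linarith) (by linarith)
      rw [hl]; linarith
    refine (hh_le2 hN).trans
      (mul_le_mul' (ENNReal.ofReal_le_ofReal (Real.exp_le_exp.mpr ?_)) le_rfl)
    have e1 : Real.log N ^ 2 ≤ l ^ 2 := pow_le_pow_left₀ hlog0 hlogl 2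
    nlinarith

theorem cr'_upper2 : ∃ K : ℝ, 0 ≤ K ∧ ∀ N : ℕ, 2 ≤ N →
    cr' N ≤ mu ^ N * Real.exp (K * Real.log N ^ 2) := by
  obtain ⟨K, hK, h⟩ := RB2
  exact cr'_upper_log (by norm_num) hK h

theorem br'_lower2 : ∃ K : ℝ, 0 ≤ K ∧ ∀ N : ℕ, 2 ≤ N →
    mu ^ N * Real.exp (- (K * Real.log N ^ 2)) ≤ br' N := by
  obtain ⟨K, hK, h⟩ := RB2
  exact br'_lower_log (by norm_num) hK h

end Pool.Agent.TH546.L2

namespace Pool.Agent.TH546.L2

open H500S

/-- the same for the words of the square lattice -/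
theorem RBsq2 : ∃ K : ℝ, 0 ≤ K ∧ H981.RB K 2 := by
  obtain ⟨K, hK, h⟩ := @RB2 sL
  refine ⟨K, hK, fun N => ?_⟩
  rw [← hh_eq, ← bn_eq]
  exact h N

theorem sq_upper2 : ∃ K : ℝ, 0 ≤ K ∧ ∀ N : ℕ, 2 ≤ N →
    H981.cr' N ≤ H981.mu ^ N * Real.exp (K * Real.log N ^ 2) := by
  obtain ⟨K, hK, h⟩ := RBsq2
  exact H981.cr'_upper_log (by norm_num) hK h

theorem sq_lower2 : ∃ K : ℝ, 0 ≤ K ∧ ∀ N : ℕ, 2 ≤ N →
    H981.mu ^ N * Real.exp (- (K * Real.log N ^ 2)) ≤ H981.br' N := by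
  obtain ⟨K, hK, h⟩ := RBsq2
  exact H981.br'_lower_log (by norm_num) hK h

theorem sq_PP2 : ∃ K : ℝ, 0 ≤ K ∧ ∀ N : ℕ, 2 ≤ N →
    H981.mu ^ (2 * N) * Real.exp (-(K * Real.log N ^ 2)) ≤ H981.PP N ∧
    H981.PP N ≤ H981.mu ^ (2 * N) * Real.exp (K * Real.log N ^ 2) := by
  obtain ⟨K, hK, h⟩ := RBsq2
  exact H981.PP_bounds_log (by norm_num) hK h

end Pool.Agent.TH546.L2
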