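import Pool.Agent.W387.S.Mat

/-!
The matching of extendable folded walks and bridges, with control of the first irreducible piece
of the rising part and of the last irreducible piece of the descending part.
-/

set_option linter.unusedSectionVars false

namespace Pool.Agent.TH546.L2

open Pool.Agent.W387.S
open H982F (Saw Adj Cut Up fl zf ct SawSet mem_SawSet FBr BrSet mem_BrSet)
open H982R (Wk rf tm rf_le rf_gt rf_rf tm_le tm_mid tm_gt tm_self)
open H500S (tp tp_le tp_max tp_last tp_eq rf_comm rf_rf_left rf_rf_right up_rf_ge up_rf_le)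

variable [L : H982.Lat]

/-- the rising part of `v` has no cut at a level below `z` -/
def U1 (z : ℤ) (N : ℕ) (v : Wk) : Prop :=
  ∀ i, 0 < i → i < tp N v → (∀ j, j ≤ i → (v j).1 ≤ (v i).1) →
    (∀ j, i < j → j ≤ tp N v → (v i).1 < (v j).1) → z ≤ (v i).1

/-- the descending part of `v` has no cut at a level less than `z` above its end -/
def D1 (z : ℤ) (N : ℕ) (v : Wk) : Prop :=
  ∀ i, tp N v < i → i < N → (∀ j, tp N v ≤ j → j ≤ i → (v i).1 ≤ (v j).1) →
    (∀ j, i < j → j ≤ N → (v j).1 < (v i).1) → z ≤ (v i).1 - (v N).1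

/-- the walk `w` has no cut at a level below `z` -/
def U2 (z : ℤ) (N : ℕ) (w : Wk) : Prop :=
  ∀ i, 0 < i → i < N → (∀ j, j ≤ i → (w j).1 ≤ (w i).1) →
    (∀ j, i < j → j ≤ N → (w i).1 < (w j).1) → z ≤ (w i).1

/-- the walk `w` has no cut at a level less than `z` below its end -/
def D2 (z : ℤ) (N : ℕ) (w : Wk) : Prop :=
  ∀ i, 0 < i → i < N → (∀ j, j ≤ i → (w j).1 ≤ (w i).1) →
    (∀ j, i < j → j ≤ N → (w i).1 < (w j).1) → z ≤ (w N).1 - (w i).1

open scoped Classical in
noncomputable def VX2 (a b : Prop) (N : ℕ) (z α Lm β Lb : ℤ) : Finset Wk :=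
  (SawSet N).filter (fun v => OV N α Lm β Lb v ∧ (a → U1 z N v) ∧ (b → D1 z N v))

open scoped Classical in
noncomputable def WX2 (a b : Prop) (N : ℕ) (z D0 D : ℤ) : Finset Wk :=
  (SawSet N).filter (fun w => (FBr N w ∧ D0 ≤ (w N).1 ∧ (w N).1 < D) ∧ (a → U2 z N w) ∧
    (b → D2 z N w))

theorem mem_VX2 {a b : Prop} {N : ℕ} {z α Lm β Lb : ℤ} {v : Wk} :
    v ∈ VX2 a b N z α Lm β Lb ↔ OV N α Lm β Lb v ∧ (a → U1 z N v) ∧ (b → D1 z N v) := by
  classical
  unfold VX2
  rw [Finset.mem_filter]
  exact ⟨fun h => h.2, fun h => ⟨mem_SawSet.2 h.1.saw, h⟩⟩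

theorem mem_WX2 {a b : Prop} {N : ℕ} {z D0 D : ℤ} {w : Wk} :
    w ∈ WX2 a b N z D0 D ↔ (FBr N w ∧ D0 ≤ (w N).1 ∧ (w N).1 < D) ∧ (a → U2 z N w) ∧
      (b → D2 z N w) := by
  classical
  unfold WX2
  rw [Finset.mem_filter]
  exact ⟨fun h => h.2, fun h => ⟨mem_SawSet.2 h.1.1.saw, h⟩⟩

theorem card_VX2_le {a b : Prop} {N : ℕ} {z α Lm β Lb D0 : ℤ} (hα : Lm ≤ 2 * α)
    (hβ : Lb ≤ 2 * β) (hα0 : 0 < α) (h0 : D0 ≤ α ∨ D0 ≤ β) (ha : a → z ≤ α) (hb : b → z ≤ β) :
    (VX2 a b N z α Lm β Lb).card ≤ (WX2 a b N z D0 (Lm + Lb)).card := by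
  classical
  obtain ⟨V, hV⟩ : ∃ V, V = VX2 a b N z α Lm β Lb := ⟨_, rfl⟩
  obtain ⟨W, hW⟩ : ∃ W, W = WX2 a b N z D0 (Lm + Lb) := ⟨_, rfl⟩
  have memV' : ∀ v, v ∈ V ↔ OV N α Lm β Lb v ∧ (a → U1 z N v) ∧ (b → D1 z N v) := by
    intro v; rw [hV]; exact mem_VX2
  have memW' : ∀ w, w ∈ W ↔ (FBr N w ∧ D0 ≤ (w N).1 ∧ (w N).1 < Lm + Lb) ∧ (a → U2 z N w) ∧
      (b → D2 z N w) := by
    intro w; rw [hW]; exact mem_WX2
  have memV : ∀ v, v ∈ V → OV N α Lm β Lb v := fun v h => ((memV' v).1 h).1
  have memW : ∀ w, w ∈ W → FBr N w ∧ D0 ≤ (w N).1 ∧ (w N).1 < Lm + Lb :=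
    fun w h => ((memW' w).1 h).1
  rw [← hV, ← hW]
  have hVW : ∀ z, z ∈ V → z ∈ W → False := by
    intro z h1 h2
    have h1 := memV _ h1
    have h2 := memW _ h2
    have h3 := tp_last (N := N) (w := z) N h1.lt le_rfl
    have h4 := h2.1.le _ (tp_le N z)
    omega
  -- the unfolded walk of an element of `V`
  have hVun : ∀ v, v ∈ V → rf v (tp N v) ∈ W := by
    intro v hv
    obtain ⟨h, hu, hd⟩ := (memV' v).1 hv
    rw [memW']
    have hle : ∀ i, i ≤ tp N v → rf v (tp N v) i = v i := fun i hi => rf_le hi
    have hgt : ∀ i, tp N v < i → (rf v (tp N v) i).1 = 2 * (v (tp N v)).1 - (v i).1 :=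
      fun i hi => by rw [rf_gt hi]
    have e : (rf v (tp N v) N).1 = 2 * (v (tp N v)).1 - (v N).1 := hgt N h.lt
    have a1 := h.a1
    have a2 := h.a2
    have b1 := h.b1
    have b2 := h.b2
    have hlt := h.lt
    refine ⟨⟨h.br, ?_, ?_⟩, ?_, ?_⟩
    · rw [e]; rcases h0 with h0 | h0 <;> omega
    · rw [e]; omega
    · intro haa i hi0 hiN c1 c2
      have hz := ha haa
      by_contra hcon
      have hiτ : i < tp N v := by
        by_contra hge
        push Not at hge
        have h5 := c1 (tp N v) hge
        rw [hle _ le_rfl] at h5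
        omega
      rw [hle i hiτ.le] at hcon
      apply hcon
      refine hu haa i hi0 hiτ ?_ ?_
      · intro j hj
        have := c1 j hj
        rwa [hle j (by omega), hle i hiτ.le] at this
      · intro j h5 h6
        have := c2 j h5 (by omega)
        rwa [hle j h6, hle i hiτ.le] at this
    · intro hbb i hi0 hiN c1 c2
      have hz := hb hbb
      by_contra hcon
      have hiτ : tp N v < i := by
        by_contra hge
        push Not at hge
        have h5 : (rf v (tp N v) i).1 ≤ (rf v (tp N v) (tp N v)).1 := by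
          rw [hle i hge, hle _ le_rfl]
          exact tp_max i (by omega)
        rw [hle _ le_rfl] at h5
        omega
      apply hcon
      have h5 := hd hbb i hiτ hiN (by
        intro j h5 h6
        have h7 := c1 j h6
        rw [hgt i hiτ] at h7
        rcases Nat.eq_or_lt_of_le h5 with h8 | h8
        · rw [← h8, hle _ le_rfl] at h7
          rw [← h8]
          omega
        · rw [hgt j h8] at h7
          omega) (by
        intro j h5 h6
        have h7 := c2 j h5 h6
        rw [hgt i hiτ, hgt j (by omega)] at h7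
        omega)
      rw [e, hgt i hiτ]
      omega
  refine Pool.Agent.H725R3.match_card V W (fun t z => rf z t)
    (fun z t => t < N ∧ Up z t ∧ (∀ i, i ≤ t → (z i).1 ≤ (z t).1) ∧ α ≤ (z t).1 ∧
      ((z ∈ V ∧ rf z t ∈ W) ∨ (z ∈ W ∧ rf z t ∈ V)))
    (fun z s => s < N ∧ Up z s ∧
      ((z ∈ V ∧ rf z s ∈ W ∧ (∀ i, s < i → i ≤ N → (z i).1 < (z s).1) ∧
          β ≤ (z s).1 - (z N).1) ∨
       (z ∈ W ∧ rf z s ∈ V ∧ (∀ i, s < i → i ≤ N → (z s).1 < (z i).1) ∧
          β ≤ (z N).1 - (z s).1)))
    (fun z => tp N z) ?_ ?_ ?_ ?_ ?_ ?_ ?_ ?_ ?_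
  · intro z t
    simp only [rf_rf]
  · intro z s t
    rw [rf_comm]
  · -- hFV
    rintro z hz t ⟨f3, f4, f5, f6, f7⟩
    have h5 : rf z t ∈ W := by
      rcases f7 with h | h
      · exact h.2
      · exact (hVW z hz h.1).elim
    refine ⟨h5, f3, up_rf_ge le_rfl f4, ?_, ?_, Or.inr ⟨h5, ?_⟩⟩
    · intro i hi
      rw [rf_le hi, rf_le le_rfl]
      exact f5 i hi
    · rw [rf_le le_rfl]
      exact f6
    · simp only [rf_rf]
      exact hz
  · -- hGV
    rintro z hz s ⟨g3, g4, g5⟩
    have h5 : rf z s ∈ W ∧ (∀ i, s < i → i ≤ N → (z i).1 < (z s).1) ∧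
        β ≤ (z s).1 - (z N).1 := by
      rcases g5 with h | h
      · exact h.2
      · exact (hVW z hz h.1).elim
    refine ⟨h5.1, g3, up_rf_ge le_rfl g4, Or.inr ⟨h5.1, ?_, ?_, ?_⟩⟩
    · simp only [rf_rf]
      exact hz
    · intro i h6 h7
      rw [rf_le le_rfl, rf_gt h6]
      have := h5.2.1 i h6 h7
      simp only
      omega
    · rw [rf_le le_rfl, rf_gt g3]
      have := h5.2.2
      simp only
      omega
  · -- hGW
    rintro z hz s ⟨g3, g4, g5⟩
    have h5 : rf z s ∈ V ∧ (∀ i, s < i → i ≤ N → (z s).1 < (z i).1) ∧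
        β ≤ (z N).1 - (z s).1 := by
      rcases g5 with h | h
      · exact (hVW z h.1 hz).elim
      · exact h.2
    refine ⟨h5.1, g3, up_rf_ge le_rfl g4, Or.inl ⟨h5.1, ?_, ?_, ?_⟩⟩
    · simp only [rf_rf]
      exact hz
    · intro i h6 h7
      rw [rf_le le_rfl, rf_gt h6]
      have := h5.2.1 i h6 h7
      simp only
      omega
    · rw [rf_le le_rfl, rf_gt g3]
      have := h5.2.2
      simp only
      omega
  · -- htopF
    intro z hz
    have h := memV z hz
    exact ⟨h.lt, h.up, fun i hi => tp_max i (hi.trans (tp_le N _)), h.a1,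
      Or.inl ⟨hz, hVun z hz⟩⟩
  · -- htopG
    intro z hz
    have h := memV z hz
    exact ⟨h.lt, h.up, Or.inl ⟨hz, hVun z hz, tp_last, h.b1⟩⟩
  · -- htop
    rintro z hz t ⟨f3, f4, f5, f6, f7⟩
    by_contra hcon
    push Not at hcon
    have h3 := tp_last (N := N) (w := z) t hcon f3.le
    have h4 := f5 _ hcon.le
    omega
  · -- closure
    rintro w hw t s hts ⟨f3, f4, f5, f6, f7⟩ ⟨g3, g4, g5⟩
    have hRt : rf w t ∈ V := by
      rcases f7 with h | h
      · exact (hVW _ h.1 hw).elim
      · exact h.2
    have hRs : rf w s ∈ V ∧ (∀ i, s < i → i ≤ N → (w s).1 < (w i).1) ∧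
        β ≤ (w N).1 - (w s).1 := by
      rcases g5 with h | h
      · exact (hVW _ h.1 hw).elim
      · exact h.2
    obtain ⟨hRs1, hRs2, hRs3⟩ := hRs
    obtain ⟨vt, ut, -⟩ := (memV' _).1 hRt
    obtain ⟨vs, -, ds⟩ := (memV' _).1 hRs1
    have wm := memW _ hw
    have hmem : tm w t s ∈ W := by
      rcases Nat.eq_or_lt_of_le hts with hlt | hlt
      · subst hlt
        rw [tm_self]
        exact hw
      have et : ∀ i, t < i → (rf w t i).1 = 2 * (w t).1 - (w i).1 := fun i hi => by rw [rf_gt hi]
      have et' : ∀ i, i ≤ t → (rf w t i).1 = (w i).1 := fun i hi => by rw [rf_le hi]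
      have es : ∀ i, s < i → (rf w s i).1 = 2 * (w s).1 - (w i).1 := fun i hi => by rw [rf_gt hi]
      have es' : ∀ i, i ≤ s → (rf w s i).1 = (w i).1 := fun i hi => by rw [rf_le hi]
      have htN : (rf w t N).1 = 2 * (w t).1 - (w N).1 := et N f3
      have hsN : (rf w s N).1 = 2 * (w s).1 - (w N).1 := es N g3
      -- c1
      have c1 : ∀ i, i ≤ s → (w i).1 < 2 * (w t).1 := by
        intro i hi
        have h1 := vs.a2
        have h2 := tp_max (N := N) (w := rf w s) i (by omega)
        rw [es' i hi] at h2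
        omega
      have c2 : ∀ i, t ≤ i → i ≤ s → 2 * (w s).1 - (w N).1 ≤ (w i).1 := by
        intro i hi1 hi2
        have h1 := vt.b2
        have h2 := tp_max (N := N) (w := rf w t) i (by omega)
        have h3 : (rf w t i).1 = 2 * (w t).1 - (w i).1 := by
          rcases Nat.eq_or_lt_of_le hi1 with h4 | h4
          · rw [← h4, et' t le_rfl]; ring
          · exact et i h4
        rw [h3] at h2
        rw [htN] at h1
        omega
      have hPN : PN N w t s :=
        ⟨wm.1, hlt, g3, f4, g4, f5, hRs2, vt.saw, vs.saw, vt.ed, vs.eu, c1, c2⟩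
      have ul : ∀ i, i ≤ t → (tm w t s i).1 = (w i).1 := fun i hi => by rw [tm_le hi]
      have um : ∀ i, t ≤ i → i ≤ s → (tm w t s i).1 = 2 * (w t).1 - (w i).1 := by
        intro i h1 h2
        rcases Nat.eq_or_lt_of_le h1 with h3 | h3
        · rw [← h3, ul t le_rfl]; ring
        · rw [tm_mid h3 h2]
      have ug : ∀ i, s ≤ i → (tm w t s i).1 = (w i).1 - 2 * ((w s).1 - (w t).1) := by
        intro i h1
        rcases Nat.eq_or_lt_of_le h1 with h3 | h3
        · rw [← h3, um s hlt.le le_rfl]; ring
        · rw [tm_gt (by omega) h3]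
      have e : (tm w t s N).1 = (w N).1 - 2 * ((w s).1 - (w t).1) := ug N g3.le
      rw [memW']
      refine ⟨⟨tm_fbr hPN, ?_, ?_⟩, ?_, ?_⟩
      · rw [e]
        have h1 := c1 s le_rfl
        have h2 := c2 t le_rfl hts
        rcases h0 with h3 | h3 <;> omega
      · rw [e]
        have h1 := vs.a2
        have h2 := vs.b2
        have h3 := tp_max (N := N) (w := rf w s) t (by omega)
        rw [es' t hts] at h3
        rw [hsN] at h2
        omega
      · -- no low cut
        intro haa i hi0 hiN q1 q2
        have hz := ha haa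
        by_contra hcon
        have hit : i < t := by
          by_contra hge
          push Not at hge
          have h5 := q1 t hge
          rw [ul t le_rfl] at h5
          omega
        -- the top of `rf w t`
        have k1 : t ≤ tp N (rf w t) := by
          by_contra hlt'
          push Not at hlt'
          have h5 := tp_last (N := N) (w := rf w t) t hlt' f3.le
          rw [et' t le_rfl, et' _ hlt'.le] at h5
          have := f5 _ hlt'.le
          omega
        have k2 : tp N (rf w t) ≤ s := by
          by_contra hlt'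
          push Not at hlt'
          have h5 := tp_max (N := N) (w := rf w t) s (by omega)
          rw [et s hlt, et _ (by omega)] at h5
          have := hRs2 _ hlt' (tp_le N _)
          omega
        apply hcon
        rw [ul i hit.le, ← et' i hit.le]
        refine ut haa i hi0 (by omega) ?_ ?_
        · intro j hj
          have h5 := q1 j hj
          rw [ul j (by omega), ul i hit.le] at h5
          rw [et' j (by omega), et' i hit.le]
          exact h5
        · intro j h5 h6
          have h7 := q2 j h5 (h6.trans (tp_le N _))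
          rw [ul i hit.le] at h7
          rw [et' i hit.le]
          rcases Nat.lt_or_ge t j with h8 | h8
          · rw [et j h8, ← um j h8.le (h6.trans k2)]
            exact h7
          · rw [et' j h8]
            rw [ul j h8] at h7
            exact h7
      · -- no high cut
        intro hbb i hi0 hiN q1 q2
        have hz := hb hbb
        by_contra hcon
        rw [e] at hcon
        have his : s < i := by
          by_contra hge
          push Not at hge
          rcases Nat.eq_or_lt_of_le hge with h5 | h5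
          · rw [h5, ug s le_rfl] at hcon
            omega
          · have h6 := q2 s h5 (by omega)
            rw [ug s le_rfl] at h6
            omega
        -- the top of `rf w s`
        have k1 : t ≤ tp N (rf w s) := by
          by_contra hlt'
          push Not at hlt'
          have h5 := tp_last (N := N) (w := rf w s) t hlt' (by omega)
          rw [es' t hts, es' _ (by omega)] at h5
          have := f5 _ hlt'.le
          omega
        have k2 : tp N (rf w s) ≤ s := by
          by_contra hlt'
          push Not at hlt'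
          have h5 := tp_max (N := N) (w := rf w s) s (by omega)
          rw [es' s le_rfl, es _ (by omega)] at h5
          have := hRs2 _ hlt' (tp_le N _)
          omega
        have h9 := ds hbb i (by omega) hiN (by
          intro j h5 h6
          have h7 := q1 j h6
          rw [ug i his.le] at h7
          rw [es i his]
          rcases Nat.lt_or_ge s j with h8 | h8
          · rw [es j h8]
            rw [ug j h8.le] at h7
            omega
          · rw [es' j h8]
            rw [um j (k1.trans h5) h8] at h7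
            omega) (by
          intro j h5 h6
          have h7 := q2 j h5 h6
          rw [ug i his.le, ug j (by omega)] at h7
          rw [es i his, es j (by omega)]
          omega)
        rw [es i his, hsN] at h9
        rw [ug i his.le] at hcon
        omega
    refine ⟨⟨g3, up_rf_le hts g4, Or.inl ⟨hRt, ?_, ?_, ?_⟩⟩,
      f3, up_rf_ge hts f4, ?_, ?_, Or.inl ⟨hRs1, ?_⟩⟩
    · rw [rf_rf_right hts]
      exact hmem
    · intro i h1 h2
      have h3 := hRs2 i h1 h2
      rw [rf_gt (show t < i by omega)]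
      rcases Nat.eq_or_lt_of_le hts with h4 | h4
      · subst h4
        rw [rf_le le_rfl]
        simp only
        omega
      · rw [rf_gt h4]
        simp only
        omega
    · rcases Nat.eq_or_lt_of_le hts with h4 | h4
      · subst h4
        rw [rf_le le_rfl, rf_gt g3]
        simp only
        omega
      · rw [rf_gt h4, rf_gt (show t < N by omega)]
        simp only
        omega
    · intro i hi
      rw [rf_le (show i ≤ s by omega), rf_le hts]
      exact f5 i hi
    · rw [rf_le hts]
      exact f6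
    · rw [rf_rf_left hts]
      exact hmem

end Pool.Agent.TH546.L2
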