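import Pool.Agent.TH546.L2.Word2

/-!
The sum over extendable pairs of bridges of comparable widths.
-/

set_option linter.unusedSectionVars false

namespace Pool.Agent.TH546.L2

open Pool.Agent.W387.S hiding PU_le PU
open H982
open scoped ENNReal
open PowerSeries
open H982F (BrSet mem_BrSet FBr SawSet mem_SawSet)
open H982R (Wk rf tm rf_le rf_gt rf_rf)
open H500S (tp tp_le tp_max tp_last tp_eq up_rf_ge)

variable [L : H982.Lat]

/-- extendable pairs with widths in `[z, 8 z]` -/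
def PQ (a b : Prop) (z : ℕ) (p : LL) : Prop :=
  ((IsB p.1 ∧ z ≤ wd p.1 ∧ wd p.1 ≤ 8 * z) ∧ (IsB p.2 ∧ z ≤ wd p.2 ∧ wd p.2 ≤ 8 * z)) ∧
    PP p.1 p.2 ∧ (a → FB z p.1) ∧ (b → LB z p.2)

noncomputable def Fp (a b : Prop) (z : ℕ) : PS :=
  fs (fun p : LL => ii (PQ a b z p) * (xl p.1 * xl p.2))

/-- with orientation -/
def PO (a b : Prop) (o : ℤ) (z : ℕ) (p : LL) : Prop :=
  PQ a b z p ∧ H982F.Up (pf o (p.1 ++ p.2)) p.1.length

lemma PO.pu {a b : Prop} {o : ℤ} {z : ℕ} (hz : 1 ≤ z) {p : LL} (h : PO a b o z p) :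
    Pool.Agent.W387.S.PU o (8 * z) p := by
  obtain ⟨⟨⟨⟨a1, a2, a3⟩, ⟨b1, b2, b3⟩⟩, hP, -, -⟩, hup⟩ := h
  have h1 : p.1 ≠ [] := IsB.ne_nil_of_pos (by omega)
  have h2 : p.2 ≠ [] := IsB.ne_nil_of_pos (by omega)
  obtain ⟨h3, h4⟩ := hP h1 h2
  exact ⟨⟨⟨a1, a3⟩, ⟨b1, b3⟩, h3, h4⟩, h1, h2, hup⟩

open scoped Classical in
noncomputable def VB (a b : Prop) (N z : ℕ) : Finset Wk :=
  (Finset.range 4 ×ˢ Finset.range 4).biUnion
    (fun g => VX2 a b N z (z * 2 ^ g.1) (z * 2 ^ (g.1 + 1)) (z * 2 ^ g.2) (z * 2 ^ (g.2 + 1)))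

theorem card_VB_le (a b : Prop) (N : ℕ) {z : ℕ} (hz : 1 ≤ z) :
    (VB a b N z).card ≤ 16 * (WX2 a b N z z (32 * z : ℕ)).card := by
  classical
  unfold VB
  refine Finset.card_biUnion_le.trans ?_
  have hz' : (1 : ℤ) ≤ z := by exact_mod_cast hz
  have h1 : ∀ g ∈ Finset.range 4 ×ˢ Finset.range 4,
      (VX2 a b N z (z * 2 ^ g.1) (z * 2 ^ (g.1 + 1)) (z * 2 ^ g.2) (z * 2 ^ (g.2 + 1))).card ≤
      (WX2 a b N z z (32 * z : ℕ)).card := by
    rintro ⟨i, j⟩ hg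
    rw [Finset.mem_product, Finset.mem_range, Finset.mem_range] at hg
    obtain ⟨hi, hj⟩ := hg
    simp only at hi hj ⊢
    have q1 : (1 : ℤ) ≤ 2 ^ i := one_le_pow₀ (by norm_num)
    have q2 : (1 : ℤ) ≤ 2 ^ j := one_le_pow₀ (by norm_num)
    have q3 : (2 : ℤ) ^ i ≤ 2 ^ 3 := pow_le_pow_right₀ (by norm_num) (by omega)
    have q4 : (2 : ℤ) ^ j ≤ 2 ^ 3 := pow_le_pow_right₀ (by norm_num) (by omega)
    have r1 : (z : ℤ) ≤ z * 2 ^ i := le_mul_of_one_le_right (by omega) q1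
    have r2 : (z : ℤ) ≤ z * 2 ^ j := le_mul_of_one_le_right (by omega) q2
    have r3 : (z : ℤ) * 2 ^ i ≤ z * 2 ^ 3 := mul_le_mul_of_nonneg_left q3 (by omega)
    have r4 : (z : ℤ) * 2 ^ j ≤ z * 2 ^ 3 := mul_le_mul_of_nonneg_left q4 (by omega)
    have e1 : (z : ℤ) * 2 ^ (i + 1) = 2 * (z * 2 ^ i) := by rw [pow_succ]; ring
    have e2 : (z : ℤ) * 2 ^ (j + 1) = 2 * (z * 2 ^ j) := by rw [pow_succ]; ring
    refine (card_VX2_le (D0 := z) e1.le e2.le (by omega) (Or.inl r1) (fun _ => r1)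
      (fun _ => r2)).trans ?_
    apply Finset.card_le_card
    intro w hw
    rw [mem_WX2] at hw ⊢
    refine ⟨⟨hw.1.1, hw.1.2.1, lt_of_lt_of_le hw.1.2.2 ?_⟩, hw.2⟩
    rw [e1, e2]
    push_cast
    norm_num at r3 r4
    omega
  refine (Finset.sum_le_sum h1).trans ?_
  rw [Finset.sum_const, Finset.card_product, Finset.card_range, smul_eq_mul]

lemma PO_le {a b : Prop} {o : ℤ} (ho : o = 1 ∨ o = -1) (N : ℕ) {z : ℕ} (hz : 1 ≤ z) :
    ∑' p : LL, ind (PO a b o z p ∧ (p.1 ++ p.2).length = N) * 1 ≤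
    32 * coeff N (Ws a b z (32 * z)) := by
  classical
  have h1 : ∑' w : Wk, ind (w ∈ VB a b N z) * 1 = ((VB a b N z).card : ℝ≥0∞) := by
    rw [tsum_eq_sum (s := VB a b N z)]
    · rw [Finset.sum_congr rfl (g := fun _ => (1 : ℝ≥0∞))]
      · simp
      · intro w hw
        rw [ind_of hw, mul_one]
    · intro w hw
      rw [ind_not hw, zero_mul]
  have h2 : ((VB a b N z).card : ℝ≥0∞) ≤ 32 * coeff N (Ws a b z (32 * z)) := by
    have h3 : ((VB a b N z).card : ℝ≥0∞) ≤ ((16 * (WX2 a b N z z (32 * z : ℕ)).card : ℕ) : ℝ≥0∞) := by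
      exact_mod_cast card_VB_le a b N hz
    refine h3.trans ?_
    push_cast
    have h4 := card_WX2_le a b N (z := z) (V := 32 * z) hz
    push_cast at h4
    calc (16 : ℝ≥0∞) * ((WX2 a b N z z (32 * z)).card : ℝ≥0∞)
        ≤ 16 * (2 * coeff N (Ws a b z (32 * z))) := by gcongr
      _ = _ := by rw [← mul_assoc]; norm_num
  refine le_trans ?_ h2
  rw [← h1]
  refine tsum_inj _ _ _ _ (fun p : LL => pf o (p.1 ++ sg p.2)) ?_ ?_ ?_
  · rintro p q ⟨hp, hpN⟩ ⟨hq, hqN⟩ heq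
    obtain ⟨a1, a2, -⟩ := ov_of ho (hp.pu hz)
    obtain ⟨b1, b2, -⟩ := ov_of ho (hq.pu hz)
    rw [hpN] at a1
    rw [hqN] at b1
    have h3 : p.1.length = q.1.length := by rw [← a1, ← b1, heq]
    have h4 : pf o (p.1 ++ p.2) = pf o (q.1 ++ q.2) := by rw [← a2, ← b2, heq, h3]
    have ok : ∀ r : LL, PO a b o z r → Ok (r.1 ++ r.2) := fun r hr =>
      ok_append.mpr ⟨hr.1.1.1.1.br.saw.2, hr.1.1.2.1.br.saw.2⟩
    have h5 : p.1 ++ p.2 = q.1 ++ q.2 := pf_inj ho (ok p hp) (ok q hq) (hpN.trans hqN.symm) h4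
    obtain ⟨h6, h7⟩ := List.append_inj h5 h3
    exact Prod.ext h6 h7
  · rintro p ⟨hp, hpN⟩
    obtain ⟨htp, -, a3⟩ := ov_of ho (hp.pu hz)
    obtain ⟨⟨⟨⟨x1, x2, x3⟩, ⟨y1, y2, y3⟩⟩, hP, hfa, hfb⟩, hup⟩ := hp
    have key : ∀ x : ℕ, z ≤ x → x ≤ 8 * z → ∃ i ∈ Finset.range 4,
        z * 2 ^ i ≤ x ∧ x < z * 2 ^ (i + 1) := by
      intro x h5 h6
      rcases Nat.lt_or_ge x (2 * z) with h7 | h7
      · exact ⟨0, by simp, by norm_num; omega, by norm_num; omega⟩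
      · rcases Nat.lt_or_ge x (4 * z) with h8 | h8
        · exact ⟨1, by simp, by norm_num; omega, by norm_num; omega⟩
        · rcases Nat.lt_or_ge x (8 * z) with h9 | h9
          · exact ⟨2, by simp, by norm_num; omega, by norm_num; omega⟩
          · exact ⟨3, by simp, by norm_num; omega, by norm_num; omega⟩
    obtain ⟨i, hi, i1, i2⟩ := key _ x2 x3
    obtain ⟨j, hj, j1, j2⟩ := key _ y2 y3
    unfold VB
    rw [Finset.mem_biUnion]
    refine ⟨(i, j), ?_, ?_⟩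
    · rw [Finset.mem_product]
      exact ⟨hi, hj⟩
    · rw [mem_VX2]
      simp only
      refine ⟨?_, ?_, ?_⟩
      · have h5 := a3 (z * 2 ^ i) (z * 2 ^ (i + 1)) (z * 2 ^ j) (z * 2 ^ (j + 1))
          (by exact_mod_cast i1) (by exact_mod_cast i2) (by exact_mod_cast j1)
          (by exact_mod_cast j2)
        rwa [hpN] at h5
      · intro ha
        have := u1_pf (hfa ha) htp
        rwa [hpN] at this
      · intro hb
        have := d1_pf (hfb hb) htp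
        rwa [hpN] at this
  · intro p _
    exact le_rfl

theorem Fp_le (a b : Prop) {z : ℕ} (hz : 1 ≤ z) :
    Fp a b z ≤ cst 64 * Ws a b z (32 * z) := by
  intro N
  rw [coeff_cst_mul]
  have h0 : coeff N (Fp a b z) = ∑' p : LL, ind (PQ a b z p ∧ (p.1 ++ p.2).length = N) * 1 := by
    unfold Fp
    rw [coeff_fs]
    congr 1; ext p
    rw [coeff_ii_mul, ← xl_append, coeff_xl, ind_and (PQ a b z p), mul_one]
  have h3 := PO_le (a := a) (b := b) (o := 1) (Or.inl rfl) N hz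
  have h3' := PO_le (a := a) (b := b) (o := -1) (Or.inr rfl) N hz
  rw [h0]
  calc ∑' p : LL, ind (PQ a b z p ∧ (p.1 ++ p.2).length = N) * 1
      ≤ ∑' p : LL, (ind (PO a b 1 z p ∧ (p.1 ++ p.2).length = N) * 1 +
        ind (PO a b (-1) z p ∧ (p.1 ++ p.2).length = N) * 1) := by
        apply ENNReal.tsum_le_tsum
        intro p
        by_cases hp : PQ a b z p ∧ (p.1 ++ p.2).length = N
        · rw [ind_of hp, one_mul]
          obtain ⟨hq, a6⟩ := hp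
          have hX : p.1 ≠ [] := IsB.ne_nil_of_pos (by have := hq.1.1.2.1; omega)
          have hY : p.2 ≠ [] := IsB.ne_nil_of_pos (by have := hq.1.2.2.1; omega)
          have hN : NCg p.1 p.2 := by
            obtain ⟨u, -, h, -⟩ := (hq.2.1 hX hY).1
            exact h.suf
          obtain ⟨o, ho, h4⟩ := up_cases hq.1.1.1 hq.1.2.1 hX hY hN
          rcases ho with rfl | rfl
          · rw [ind_of (p := PO a b 1 z p ∧ (p.1 ++ p.2).length = N) ⟨⟨hq, h4⟩, a6⟩, one_mul]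
            exact le_self_add
          · rw [ind_of (p := PO a b (-1) z p ∧ (p.1 ++ p.2).length = N) ⟨⟨hq, h4⟩, a6⟩, one_mul]
            exact le_add_self
        · rw [ind_not hp, zero_mul]; exact zero_le
    _ = ∑' p : LL, ind (PO a b 1 z p ∧ (p.1 ++ p.2).length = N) * 1 +
        ∑' p : LL, ind (PO a b (-1) z p ∧ (p.1 ++ p.2).length = N) * 1 := by
        rw [ENNReal.tsum_add]
    _ ≤ 32 * coeff N (Ws a b z (32 * z)) + 32 * coeff N (Ws a b z (32 * z)) :=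
        add_le_add h3 h3'
    _ = _ := by rw [← add_mul]; norm_num

/-- irreducible bridges with widths in `[z, V]` -/
noncomputable def Js (z V : ℕ) : PS := fs (fun ι => ii (Irr ι ∧ z ≤ wd ι ∧ wd ι ≤ V) * xl ι)

lemma Js_le (z V : ℕ) : cst (z : ℝ≥0∞) * Js z V ≤ Ks V := by
  unfold Js Ks
  rw [mul_fs]
  apply fs_mono
  intro ι
  by_cases h : Irr ι ∧ z ≤ wd ι ∧ wd ι ≤ V
  · rw [ii_of h, ii_of (p := Irr ι ∧ wd ι ≤ V) ⟨h.1, h.2.2⟩, one_mul, one_mul]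
    gcongr
    apply cst_le
    exact_mod_cast h.2.1
  · rw [ii_not h, zero_mul, mul_zero]
    exact zero_le

lemma Js_mono {z V V' : ℕ} (h : V ≤ V') : Js z V ≤ Js z V' := by
  apply fs_mono
  intro ι
  gcongr
  exact ii_mono fun h' => ⟨h'.1, h'.2.1, h'.2.2.trans h⟩

lemma Ws_ff (z V : ℕ) : Ws False False z V ≤ Us V := by
  apply fs_mono
  intro B
  gcongr
  exact ii_mono fun h => h.1

lemma Ws_tf (z V : ℕ) : Ws True False z V ≤ Js z V * Us V := by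
  have e : Js z V * Us V = fs (fun q : LL => ii ((Irr q.1 ∧ z ≤ wd q.1 ∧ wd q.1 ≤ V) ∧
      (IsB q.2 ∧ wd q.2 ≤ V)) * (xl q.1 * xl q.2)) := by
    unfold Js Us
    rw [fs_mul_fs]
    apply fs_congr
    intro q
    rw [ii_and (_ ∧ _ ∧ _)]; ring
  rw [e]
  refine fs_cover _ _ _ _ (fun q : LL => q.1 ++ q.2) ?_
  rintro B ⟨⟨h1, h2⟩, h3, -⟩
  obtain ⟨ι, X, rfl, hι, hX, hz⟩ := h3 trivial
  rw [wd_append hι.1 hX] at h2
  exact ⟨(ι, X), ⟨⟨hι, hz, by simp only; omega⟩, hX, by simp only; omega⟩, rfl, by rw [xl_append]⟩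

lemma Ws_ft (z V : ℕ) : Ws False True z V ≤ Us V * Js z V := by
  have e : Us V * Js z V = fs (fun q : LL => ii ((IsB q.1 ∧ wd q.1 ≤ V) ∧
      (Irr q.2 ∧ z ≤ wd q.2 ∧ wd q.2 ≤ V)) * (xl q.1 * xl q.2)) := by
    unfold Js Us
    rw [fs_mul_fs]
    apply fs_congr
    intro q
    rw [ii_and (IsB q.1 ∧ _)]; ring
  rw [e]
  refine fs_cover _ _ _ _ (fun q : LL => q.1 ++ q.2) ?_
  rintro B ⟨⟨h1, h2⟩, -, h3⟩
  obtain ⟨Y, ι, rfl, hY, hι, hz⟩ := h3 trivial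
  rw [wd_append hY hι.1] at h2
  exact ⟨(Y, ι), ⟨⟨hY, by simp only; omega⟩, hι, hz, by simp only; omega⟩, rfl, by rw [xl_append]⟩

lemma Ws_tt (z V : ℕ) : Ws True True z V ≤ Js z V * (Us V * Js z V) + Js z V := by
  have e1 : Js z V * (Us V * Js z V) = fs (fun q : L3 => ii ((Irr q.1 ∧ z ≤ wd q.1 ∧ wd q.1 ≤ V) ∧
      (IsB q.2.1 ∧ wd q.2.1 ≤ V) ∧ (Irr q.2.2 ∧ z ≤ wd q.2.2 ∧ wd q.2.2 ≤ V)) *
      (xl q.1 * (xl q.2.1 * xl q.2.2))) := by
    unfold Js Us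
    rw [fs_mul_fs, fs_mul_fs]
    apply fs_congr
    intro q
    simp only [ii_and]; ring
  have h1 : Ws True True z V ≤
      fs (fun B => ii (∃ q : L3, ((Irr q.1 ∧ z ≤ wd q.1 ∧ wd q.1 ≤ V) ∧
      (IsB q.2.1 ∧ wd q.2.1 ≤ V) ∧ (Irr q.2.2 ∧ z ≤ wd q.2.2 ∧ wd q.2.2 ≤ V)) ∧
      q.1 ++ (q.2.1 ++ q.2.2) = B) * xl B) + Js z V := by
    unfold Js Ws
    rw [← fs_add]
    apply fs_mono
    intro B
    by_cases h : (IsB B ∧ wd B ≤ V) ∧ (True → FB z B) ∧ (True → LB z B)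
    · rw [ii_of h, one_mul]
      obtain ⟨⟨h1, h2⟩, h3, h4⟩ := h
      obtain ⟨ι, X, hB1, hι, hX, hz⟩ := h3 trivial
      obtain ⟨Y, ι', hB2, hY, hι', hz'⟩ := h4 trivial
      by_cases hX0 : X = []
      · have hB : B = ι := by rw [hB1, hX0, List.append_nil]
        rw [ii_of (p := Irr B ∧ z ≤ wd B ∧ wd B ≤ V) ⟨hB ▸ hι, by rw [hB]; exact hz, h2⟩, one_mul]
        exact le_add_self
      · have s1 : Spl (wd ι) B ι X := ⟨hB1, hι.1.br, hX⟩
        have s2 : Spl (wd Y) B Y ι' := ⟨hB2, hY.br, hι'.1⟩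
        have hle : wd ι ≤ wd Y := by
          by_contra hcon
          push Not at hcon
          obtain ⟨M, e1, e2, e3⟩ := s2.refine s1 hcon.le
          rcases hι'.2.2 _ _ _ ⟨e2, e3, hX⟩ with h | h
          · exact e3.ne_nil (by omega) h
          · exact hX0 h
        obtain ⟨M, e1, e2, e3⟩ := s1.refine s2 hle
        have hw : wd B = wd ι + (wd M + wd ι') := by
          rw [hB1, e2, wd_append hι.1 (e3.isB.append hι'.1), wd_append e3.isB hι'.1]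
        rw [ii_of (p := ∃ q : L3, _) ⟨(ι, M, ι'), ⟨⟨hι, hz, by simp only; omega⟩,
          ⟨e3.isB, by simp only; omega⟩, hι', hz', by simp only; omega⟩, by
            simp only; rw [hB1, e2]⟩, one_mul]
        exact le_self_add
    · rw [ii_not h, zero_mul]
      exact zero_le
  refine h1.trans (add_le_add ?_ le_rfl)
  rw [e1]
  refine fs_cover _ _ _ _ (fun q : L3 => q.1 ++ (q.2.1 ++ q.2.2)) ?_
  rintro B ⟨q, hq, rfl⟩
  exact ⟨q, hq, rfl, by rw [xl_append, xl_append]⟩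

end Pool.Agent.TH546.L2
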