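import Pool.Agent.TH546.L2.Chain3

/-!
The sums of the increments, and the bound at one scale.
-/

set_option linter.unusedSectionVars false

namespace Pool.Agent.TH546.L2

open Pool.Agent.W387.S hiding PU_le PU
open H982
open scoped ENNReal
open PowerSeries

variable [L : H982.Lat]

lemma sum_eq_le (r k : ℕ) {ι : Type*} (A : ι → Prop) (s : ι → ℕ) (F : ι → PS) :
    ∑ l ∈ Finset.range k, fs (fun p => ii (A p ∧ s p = r + l) * F p) ≤
    fs (fun p => ii (A p) * F p) := by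
  classical
  rw [← fs_sum]
  apply fs_mono
  intro p
  by_cases h : A p
  · rw [ii_of h, one_mul]
    have h1 : ∀ l ∈ Finset.range k, l ≠ s p - r → ii (A p ∧ s p = r + l) * F p = 0 := by
      intro l _ hl
      rw [ii_not (fun h' => hl (by omega)), zero_mul]
    by_cases h2 : s p - r ∈ Finset.range k
    · rw [Finset.sum_eq_single_of_mem _ h2 h1]
      calc _ ≤ 1 * F p := by gcongr; exact ii_le_one _
        _ = _ := one_mul _
    · rw [Finset.sum_eq_zero]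
      · exact zero_le
      · intro l hl
        exact h1 l hl (fun h3 => h2 (h3 ▸ hl))
  · rw [Finset.sum_eq_zero]
    · exact zero_le
    · intro l _
      rw [ii_not (fun h' => h h'.1), zero_mul]

lemma sum_ed_le (q : ℕ) : ∑ l ∈ Finset.range (8 * q), ed q l ≤
    Js (4 * q) (16 * q) * Ec (8 * q) (16 * q) := by
  unfold ed
  refine (sum_eq_le (8 * q) (8 * q) (fun p : LL => (Irr p.1 ∧ 4 * q ≤ wd p.1 ∧ wd p.1 ≤ 16 * q) ∧
    (IsB p.2 ∧ wd p.2 ≤ 8 * q)) (fun p => wd p.1 + wd p.2)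
    (fun p => xl p.1 * (xl p.2 * Nc (8 * q) (16 * q) p.2))).trans (le_of_eq ?_)
  unfold Js Ec
  rw [fs_mul_fs]
  apply fs_congr
  rintro ⟨a, b⟩
  simp only [ii_and]
  ring

/-- heads with long last irreducible piece -/
def HH (q : ℕ) (H : List St) : Prop := IsB H ∧ 4 * q ≤ wd H ∧ wd H ≤ 16 * q ∧ LB (2 * q) H

/-- long heads -/
def HX (q : ℕ) (Y : List St) : Prop := IsB Y ∧ 2 * q ≤ wd Y ∧ wd Y ≤ 16 * q

def T3 (q : ℕ) (β : List St) : Prop := ∃ Y ι X, β = Y ++ (ι ++ X) ∧ IsB Y ∧ Irr ι ∧ IsB X ∧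
  wd X < 4 * q ∧ 4 * q ≤ wd ι + wd X ∧ 2 * q ≤ wd Y

def T4 (q : ℕ) (β : List St) : Prop := ∃ Y ι X, β = Y ++ (ι ++ X) ∧ IsB Y ∧ Irr ι ∧ IsB X ∧
  wd X < 4 * q ∧ wd Y < 2 * q

noncomputable def YM (q : ℕ) : PS := fs (fun Y => ii (HX q Y) * (xl Y * Md q Y))

noncomputable def HM (q : ℕ) : PS := fs (fun H => ii (HH q H) * (xl H * Md q H))

lemma S2_le (q : ℕ) :
    fs (fun β => ii ((IsB β ∧ 8 * q ≤ wd β ∧ wd β < 8 * q + 8 * q) ∧ T4 q β) *
      (xl β * (Nc (8 * q) (16 * q) β * Md q β))) ≤ HM q * Ec (8 * q) (16 * q) := by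
  have e : HM q * Ec (8 * q) (16 * q) = fs (fun p : LL => ii (HH q p.1 ∧ (IsB p.2 ∧ wd p.2 ≤ 8 * q)) *
      ((xl p.1 * Md q p.1) * (xl p.2 * Nc (8 * q) (16 * q) p.2))) := by
    unfold HM Ec
    rw [fs_mul_fs]
    apply fs_congr
    rintro ⟨a, b⟩
    simp only
    rw [ii_and (HH q a)]
    ring
  rw [e]
  refine fs_cover _ _ _ _ (fun p : LL => p.1 ++ p.2) ?_
  rintro β ⟨⟨h1, h2, h3⟩, ⟨Y, ι, X, g1, g2, g3, g4, g5, g6⟩⟩
  have hw : wd β = wd Y + (wd ι + wd X) := by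
    rw [g1, wd_append g2 (g3.1.append g4), wd_append g3.1 g4]
  have hwH : wd (Y ++ ι) = wd Y + wd ι := wd_append g2 g3.1
  have g1' : β = (Y ++ ι) ++ X := by rw [g1, List.append_assoc]
  refine ⟨(Y ++ ι, X), ⟨⟨g2.append g3.1, by simp only; omega, by simp only; omega,
    ⟨Y, ι, rfl, g2, g3, by omega⟩⟩, g4, by simp only; omega⟩, g1'.symm, ?_⟩
  simp only
  have h4 : Nc (8 * q) (16 * q) β ≤ Nc (8 * q) (16 * q) X := by
    rw [g1']; exact Nc_suf _ _ _ _ (g2.append g3.1)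
  have h5 : Md q β ≤ Md q (Y ++ ι) := by
    rw [g1']; exact Md_pre q (g2.append g3.1) g4
  calc xl β * (Nc (8 * q) (16 * q) β * Md q β)
      ≤ xl β * (Nc (8 * q) (16 * q) X * Md q (Y ++ ι)) := by gcongr
    _ = _ := by rw [g1', xl_append (Y ++ ι)]; ring

lemma S1_le {q : ℕ} (hq : 1 ≤ q) :
    fs (fun β => ii ((IsB β ∧ 8 * q ≤ wd β ∧ wd β < 8 * q + 8 * q) ∧ T3 q β) *
      (xl β * (Nc (8 * q) (16 * q) β * Md q β))) ≤
    cst (((4 * q : ℕ) : ℝ≥0∞)⁻¹) * (YM q * (Ks (16 * q) * Ec (8 * q) (16 * q))) := by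
  have h1 := mark_int 0 (4 * q)
    (fun β => (IsB β ∧ 8 * q ≤ wd β ∧ wd β < 8 * q + 8 * q) ∧ T3 q β)
    (fun t => (2 * q ≤ wd t.1 ∧ wd t.1 ≤ 16 * q) ∧ wd t.2.1 ≤ 16 * q ∧ wd t.2.2 ≤ 8 * q)
    (fun β => xl β * (Nc (8 * q) (16 * q) β * Md q β))
    (fun t => (xl t.1 * Md q t.1) * (xl t.2.1 * (xl t.2.2 * Nc (8 * q) (16 * q) t.2.2))) ?_ ?_
  · have e : fs (fun t : L3 => ii (IsT t ∧ ((2 * q ≤ wd t.1 ∧ wd t.1 ≤ 16 * q) ∧
        wd t.2.1 ≤ 16 * q ∧ wd t.2.2 ≤ 8 * q)) *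
        (cst (wd t.2.1 : ℝ≥0∞) *
        ((xl t.1 * Md q t.1) * (xl t.2.1 * (xl t.2.2 * Nc (8 * q) (16 * q) t.2.2))))) =
        YM q * (Ks (16 * q) * Ec (8 * q) (16 * q)) := by
      unfold YM Ks Ec HX
      rw [fs_mul_fs, fs_mul_fs]
      apply fs_congr
      rintro ⟨a, b, c⟩
      simp only [IsT, ii_and]
      ring
    rw [e] at h1
    set S := fs (fun β => ii ((IsB β ∧ 8 * q ≤ wd β ∧ wd β < 8 * q + 8 * q) ∧ T3 q β) *
      (xl β * (Nc (8 * q) (16 * q) β * Md q β))) with hS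
    calc S = cst (((4 * q : ℕ) : ℝ≥0∞)⁻¹) * (cst ((4 * q : ℕ) : ℝ≥0∞) * S) := by
          rw [← mul_assoc, cst_inv_mul (by omega), one_mul]
      _ ≤ _ := mul_le_mul' le_rfl h1
  · rintro β ⟨⟨h2, h3, h4⟩, -⟩
    exact ⟨h2, by omega⟩
  · rintro t m ht ha hb h2 h3 ⟨⟨h4, h5, h6⟩, ⟨Y, ι, X, g1, g2, g3, g4, g5, g6, g7⟩⟩
    have hw := ht.wd
    have h10 : wd (ι ++ X) = wd ι + wd X := wd_append g3.1 g4
    have hw2 : wd (cat3 t) = wd Y + wd (ι ++ X) := by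
      rw [g1, wd_append g2 (g3.1.append g4)]
    have h9 : 2 * q ≤ wd t.1 := by
      have h11 := no_cut g2 (g3.1.append g4) ht.1 ht.2.1 ht.2.2 (show Y ++ (ι ++ X) = _ from g1.symm)
      by_contra hcon
      exact h11 ⟨by omega, by omega⟩
    refine ⟨⟨⟨h9, by omega⟩, by omega, by omega⟩, ?_⟩
    have h12 : Nc (8 * q) (16 * q) (cat3 t) ≤ Nc (8 * q) (16 * q) t.2.2 := by
      unfold cat3
      rw [← List.append_assoc]
      exact Nc_suf _ _ _ _ (ht.1.append ht.2.1.1)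
    have h13 : Md q (cat3 t) ≤ Md q t.1 := by
      unfold cat3
      exact Md_pre q ht.1 (ht.2.1.1.append ht.2.2)
    calc xl (cat3 t) * (Nc (8 * q) (16 * q) (cat3 t) * Md q (cat3 t))
        ≤ xl (cat3 t) * (Nc (8 * q) (16 * q) t.2.2 * Md q t.1) := by gcongr
      _ = _ := by
          unfold cat3
          rw [xl_append, xl_append]
          ring

lemma types2 {q : ℕ} (hq : 1 ≤ q) {β : List St} (hβ : IsB β) (h : 4 * q ≤ wd β) :
    T3 q β ∨ T4 q β := by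
  obtain ⟨Y, ι, X, h1, h2, h3, h4, h5, h6⟩ := exists_triple_r hβ.br (m := 4 * q - 1) (by omega)
  rcases Nat.lt_or_ge (wd Y) (2 * q) with h7 | h7
  · exact Or.inr ⟨Y, ι, X, h1, h2, h3, h4, by omega, h7⟩
  · exact Or.inl ⟨Y, ι, X, h1, h2, h3, h4, by omega, by omega, h7⟩

lemma sum_gd_le {q : ℕ} (hq : 1 ≤ q) : ∑ l ∈ Finset.range (8 * q), gd q l ≤
    cst (((4 * q : ℕ) : ℝ≥0∞)⁻¹) * (YM q * (Ks (16 * q) * Ec (8 * q) (16 * q))) +
    HM q * Ec (8 * q) (16 * q) := by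
  have h1 := comb_sum (8 * q) (8 * q) (fun _ => True)
    (fun β => xl β * (Nc (8 * q) (16 * q) β * Md q β))
  have e1 : ∀ l, fs (fun β => ii (IsBr (8 * q + l) β ∧ True) *
      (xl β * (Nc (8 * q) (16 * q) β * Md q β))) = gd q l := by
    intro l
    unfold gd
    apply fs_congr
    intro β
    rw [and_true]
  rw [Finset.sum_congr rfl (fun l _ => e1 l)] at h1
  refine h1.trans (le_trans ?_ (add_le_add (S1_le hq) (S2_le q)))
  rw [← fs_add]
  apply fs_mono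
  intro β
  by_cases h : (IsB β ∧ 8 * q ≤ wd β ∧ wd β < 8 * q + 8 * q) ∧ True
  · rw [ii_of h, one_mul]
    rcases types2 hq h.1.1 (by omega) with h2 | h2
    · rw [ii_of (p := (IsB β ∧ 8 * q ≤ wd β ∧ wd β < 8 * q + 8 * q) ∧ T3 q β) ⟨h.1, h2⟩, one_mul]
      exact le_self_add
    · rw [ii_of (p := (IsB β ∧ 8 * q ≤ wd β ∧ wd β < 8 * q + 8 * q) ∧ T4 q β) ⟨h.1, h2⟩, one_mul]
      exact le_add_self
  · rw [ii_not h, zero_mul]
    exact zero_le

lemma pair_sum {q : ℕ} (a b : Prop) (A B : List St → Prop)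
    (hA : ∀ T, A T → (IsB T ∧ 2 * q ≤ wd T ∧ wd T ≤ 16 * q) ∧ (a → FB (2 * q) T))
    (hB : ∀ Y, B Y → (IsB Y ∧ 2 * q ≤ wd Y ∧ wd Y ≤ 16 * q) ∧ (b → LB (2 * q) Y)) :
    fs (fun Y => ii (B Y) * (xl Y * fs (fun T => ii (A T ∧ PP T Y) * xl T))) ≤
      Fp a b (2 * q) := by
  unfold Fp
  rw [fs_prod, fs_comm]
  apply fs_mono
  intro Y
  rw [mul_fs, mul_fs]
  apply fs_mono
  intro T
  simp only
  calc ii (B Y) * (xl Y * (ii (A T ∧ PP T Y) * xl T)) =
        ii (B Y ∧ (A T ∧ PP T Y)) * (xl T * xl Y) := by rw [ii_and (B Y)]; ring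
    _ ≤ _ := by
      gcongr
      refine ii_mono fun h => ?_
      obtain ⟨h1, h2⟩ := hB Y h.1
      obtain ⟨h3, h4⟩ := hA T h.2.1
      refine ⟨⟨⟨h3.1, h3.2.1, ?_⟩, ⟨h1.1, h1.2.1, ?_⟩⟩, h.2.2, h4, h2⟩
      · simp only; omega
      · simp only; omega

lemma YM_le (q : ℕ) : YM q ≤ Fp True False (2 * q) +
    cst (((2 * q : ℕ) : ℝ≥0∞)⁻¹) * (Ks (16 * q) * Fp False False (2 * q)) := by
  have h1 := pair_sum (q := q) True False (TT q) (HX q)
    (fun T h => ⟨⟨h.1, by have := h.2.1; omega, h.2.2.1⟩, fun _ => h.2.2.2⟩)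
    (fun Y h => ⟨h, fun h => h.elim⟩)
  have h2 := pair_sum (q := q) False False (TX q) (HX q)
    (fun T h => ⟨⟨h.1, by have := h.2.1; omega, by have := h.2.2; omega⟩, fun h => h.elim⟩)
    (fun Y h => ⟨h, fun h => h.elim⟩)
  refine le_trans (le_of_eq ?_) (add_le_add h1 (mul_le_mul' le_rfl (mul_le_mul' le_rfl h2)))
  unfold YM Md
  rw [mul_fs, mul_fs, ← fs_add]
  apply fs_congr
  intro Y
  ring

lemma HM_le (q : ℕ) : HM q ≤ Fp True True (2 * q) +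
    cst (((2 * q : ℕ) : ℝ≥0∞)⁻¹) * (Ks (16 * q) * Fp False True (2 * q)) := by
  have h1 := pair_sum (q := q) True True (TT q) (HH q)
    (fun T h => ⟨⟨h.1, by have := h.2.1; omega, h.2.2.1⟩, fun _ => h.2.2.2⟩)
    (fun Y h => ⟨⟨h.1, by have := h.2.1; omega, h.2.2.1⟩, fun _ => h.2.2.2⟩)
  have h2 := pair_sum (q := q) False True (TX q) (HH q)
    (fun T h => ⟨⟨h.1, by have := h.2.1; omega, by have := h.2.2; omega⟩, fun h => h.elim⟩)
    (fun Y h => ⟨⟨h.1, by have := h.2.1; omega, h.2.2.1⟩, fun _ => h.2.2.2⟩)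
  refine le_trans (le_of_eq ?_) (add_le_add h1 (mul_le_mul' le_rfl (mul_le_mul' le_rfl h2)))
  unfold HM Md
  rw [mul_fs, mul_fs, ← fs_add]
  apply fs_congr
  intro Y
  ring

/-- `Ks / (2 q)` -/
noncomputable def kap (q : ℕ) : PS := cst (((2 * q : ℕ) : ℝ≥0∞)⁻¹) * Ks (64 * q)

lemma Js_kap {q z V : ℕ} (hq : 1 ≤ q) (hz : 2 * q ≤ z) (hV : V ≤ 64 * q) : Js z V ≤ kap q := by
  have h0 : Js z V ≤ Js (2 * q) (64 * q) := by
    apply fs_mono
    intro ι
    gcongr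
    exact ii_mono fun h => ⟨h.1, by omega, by omega⟩
  refine h0.trans ?_
  calc Js (2 * q) (64 * q) = cst (((2 * q : ℕ) : ℝ≥0∞)⁻¹) *
        (cst ((2 * q : ℕ) : ℝ≥0∞) * Js (2 * q) (64 * q)) := by
        rw [← mul_assoc, cst_inv_mul (by omega), one_mul]
    _ ≤ _ := mul_le_mul' le_rfl (Js_le _ _)

lemma Ks_kap (q : ℕ) : cst (((2 * q : ℕ) : ℝ≥0∞)⁻¹) * Ks (16 * q) ≤ kap q :=
  mul_le_mul' le_rfl (Ks_mono (by omega))

lemma Ks_kap4 (q : ℕ) : cst (((4 * q : ℕ) : ℝ≥0∞)⁻¹) * Ks (16 * q) ≤ kap q := by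
  refine mul_le_mul' (cst_le ?_) (Ks_mono (by omega))
  rw [ENNReal.inv_le_inv]
  exact_mod_cast (by omega : 2 * q ≤ 4 * q)

lemma YM_le' {q : ℕ} (hq : 1 ≤ q) : YM q ≤ cst 128 * (kap q * Us (64 * q)) := by
  have h1 := Fp_le True False (z := 2 * q) (by omega)
  have h2 := Fp_le False False (z := 2 * q) (by omega)
  rw [show 32 * (2 * q) = 64 * q by ring] at h1 h2
  have h3 : Fp True False (2 * q) ≤ cst 64 * (kap q * Us (64 * q)) := by
    refine h1.trans (mul_le_mul' le_rfl ((Ws_tf _ _).trans ?_))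
    exact mul_le_mul' (Js_kap hq le_rfl le_rfl) le_rfl
  have h4 : Fp False False (2 * q) ≤ cst 64 * Us (64 * q) :=
    h2.trans (mul_le_mul' le_rfl (Ws_ff _ _))
  calc YM q ≤ Fp True False (2 * q) +
        (cst (((2 * q : ℕ) : ℝ≥0∞)⁻¹) * Ks (16 * q)) * Fp False False (2 * q) := by
        refine (YM_le q).trans (le_of_eq ?_)
        ring
    _ ≤ cst 64 * (kap q * Us (64 * q)) + kap q * (cst 64 * Us (64 * q)) :=
        add_le_add h3 (mul_le_mul' (Ks_kap q) h4)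
    _ = (cst 64 + cst 64) * (kap q * Us (64 * q)) := by ring
    _ = _ := by rw [← cst_add]; norm_num

lemma HM_le' {q : ℕ} (hq : 1 ≤ q) : HM q ≤ cst 128 * (kap q * Us (64 * q) * kap q) +
    cst 64 * kap q := by
  have h1 := Fp_le True True (z := 2 * q) (by omega)
  have h2 := Fp_le False True (z := 2 * q) (by omega)
  rw [show 32 * (2 * q) = 64 * q by ring] at h1 h2
  have hJ : Js (2 * q) (64 * q) ≤ kap q := Js_kap hq le_rfl le_rfl
  have h3 : Fp True True (2 * q) ≤ cst 64 * (kap q * (Us (64 * q) * kap q) + kap q) := by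
    refine h1.trans (mul_le_mul' le_rfl ((Ws_tt _ _).trans ?_))
    gcongr
  have h4 : Fp False True (2 * q) ≤ cst 64 * (Us (64 * q) * kap q) := by
    refine h2.trans (mul_le_mul' le_rfl ((Ws_ft _ _).trans ?_))
    gcongr
  calc HM q ≤ Fp True True (2 * q) +
        (cst (((2 * q : ℕ) : ℝ≥0∞)⁻¹) * Ks (16 * q)) * Fp False True (2 * q) := by
        refine (HM_le q).trans (le_of_eq ?_)
        ring
    _ ≤ cst 64 * (kap q * (Us (64 * q) * kap q) + kap q) +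
        kap q * (cst 64 * (Us (64 * q) * kap q)) :=
        add_le_add h3 (mul_le_mul' (Ks_kap q) h4)
    _ = (cst 64 + cst 64) * (kap q * Us (64 * q) * kap q) + cst 64 * kap q := by ring
    _ = _ := by rw [← cst_add]; norm_num

/-- the sum of all increments -/
lemma sum_all_le {q : ℕ} (hq : 1 ≤ q) {c : ℝ≥0∞}
    (hE : Ec (8 * q) (16 * q) ≤ cst c * Us (128 * q)) :
    ∑ l ∈ Finset.range (8 * q), (ed q l + gd q l) ≤
      (cst 256 * (kap q * Us (128 * q)) + cst 65) * (cst c * (kap q * Us (128 * q))) := by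
  have hU : Us (64 * q) ≤ Us (128 * q) := Us_mono (by omega)
  set U := Us (128 * q) with hUd
  have h1 : ∑ l ∈ Finset.range (8 * q), ed q l ≤ kap q * (cst c * U) :=
    (sum_ed_le q).trans (mul_le_mul' (Js_kap hq (by omega) (by omega)) hE)
  have h2 : ∑ l ∈ Finset.range (8 * q), gd q l ≤
      (cst 128 * (kap q * U)) * (kap q * (cst c * U)) +
      (cst 128 * (kap q * U * kap q) + cst 64 * kap q) * (cst c * U) := by
    refine (sum_gd_le hq).trans (add_le_add ?_ ?_)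
    · calc cst (((4 * q : ℕ) : ℝ≥0∞)⁻¹) * (YM q * (Ks (16 * q) * Ec (8 * q) (16 * q)))
          = YM q * ((cst (((4 * q : ℕ) : ℝ≥0∞)⁻¹) * Ks (16 * q)) * Ec (8 * q) (16 * q)) := by ring
        _ ≤ (cst 128 * (kap q * U)) * (kap q * (cst c * U)) := by
          refine mul_le_mul' ((YM_le' hq).trans ?_) (mul_le_mul' (Ks_kap4 q) hE)
          gcongr
    · refine mul_le_mul' ((HM_le' hq).trans ?_) hE
      gcongr
  rw [Finset.sum_add_distrib]
  refine (add_le_add h1 h2).trans (le_of_eq ?_)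
  have e1 : (cst 65 : PS) = cst 64 + 1 := by rw [← cst_one, ← cst_add]; norm_num
  have e2 : (cst 256 : PS) = cst 128 + cst 128 := by rw [← cst_add]; norm_num
  rw [e1, e2]
  ring

lemma P_eq (a : ℕ → PS) (k : ℕ) : 2 + ∑ l ∈ Finset.range k, a l *
    (2 * ∏ j ∈ Finset.range l, (1 + a j)) = 2 * ∏ j ∈ Finset.range k, (1 + a j) := by
  induction k with
  | zero => simp
  | succ k ih =>
    rw [Finset.sum_range_succ, ← add_assoc, ih, Finset.prod_range_succ]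
    ring

/-- the chain bound at one scale -/
theorem Rd_le {q : ℕ} (hq : 1 ≤ q) (k : ℕ) (hk : k ≤ 8 * q) (β : List St) (hβ : IsB β) :
    Rd (8 * q) k β ≤ Nc (8 * q) (16 * q) β *
      (2 * ∏ j ∈ Finset.range k, (1 + (ed q j + gd q j))) := by
  induction k using Nat.strong_induction_on generalizing β with
  | _ k ih =>
    have h1 := Rd_main hq hk (fun l => 2 * ∏ j ∈ Finset.range l, (1 + (ed q j + gd q j)))
      (fun l hl β hβ => ih l hl (by omega) β hβ) β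
    rw [← P_eq]
    exact h1

lemma Nm_kapU {q : ℕ} (hq : 1 ≤ q) : Nm 128 (kap q * Us (128 * q)) := by
  have hq0 : ((2 * q : ℕ) : ℝ≥0∞) ≠ 0 := by
    exact_mod_cast (by omega : 2 * q ≠ 0)
  have hqt : ((2 * q : ℕ) : ℝ≥0∞) ≠ ⊤ := ENNReal.natCast_ne_top _
  have h1 : kap q * Us (128 * q) ≤
      cst (((2 * q : ℕ) : ℝ≥0∞)⁻¹) * (Ks (128 * q) * Us (128 * q)) := by
    unfold kap
    rw [mul_assoc]
    gcongr
    exact Ks_mono (by omega)
  refine Nm.mono ?_ h1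
  refine ((Nm_cst _).mul (Nm_KU (128 * q))).weaken ?_
  have e : ((2 * (128 * q) : ℕ) : ℝ≥0∞) = ((2 * q : ℕ) : ℝ≥0∞) * 128 := by push_cast; ring
  rw [e, ← mul_assoc, ENNReal.inv_mul_cancel hq0 hqt, one_mul]

/-- **The bound at one scale.** -/
theorem scale_bound2 {q : ℕ} (hq : 1 ≤ q) {c : ℝ} (hc : 0 ≤ c)
    (hE : Ec (8 * q) (16 * q) ≤ cst (ENNReal.ofReal c) * Us (128 * q)) :
    Nm (ENNReal.ofReal ((2 * (8 * q) + 1) * 2 * Real.exp (4202624 * c))) (Rr (8 * q) (8 * q) []) := by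
  have hqr : (0 : ℝ) ≤ q := Nat.cast_nonneg q
  have nA : Nm (ENNReal.ofReal (4202624 * c)) (∑ l ∈ Finset.range (8 * q), (ed q l + gd q l)) := by
    refine Nm.mono ?_ (sum_all_le hq hE)
    have h1 := Nm_kapU hq
    have h2 := (((Nm_cst 256).mul h1).add (Nm_cst 65)).mul ((Nm_cst (ENNReal.ofReal c)).mul h1)
    refine h2.weaken (le_of_eq ?_)
    rw [ENNReal.ofReal_mul (by norm_num)]
    have h3 : ENNReal.ofReal 4202624 = 4202624 := by norm_num
    rw [h3]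
    calc (256 * 128 + 65 : ℝ≥0∞) * (ENNReal.ofReal c * 128)
        = ((256 * 128 + 65) * 128) * ENNReal.ofReal c := by ring
      _ = _ := by norm_num
  have nP : Nm (ENNReal.ofReal (Real.exp (4202624 * c)))
      (∏ l ∈ Finset.range (8 * q), (1 + (ed q l + gd q l))) :=
    (Nm_eb (by positivity) nA (8 * q)).mono (prod_le_eb _ (8 * q))
  have h1 : Rr (8 * q) (8 * q) [] ≤ Us (16 * q) *
      (cst 2 * ∏ l ∈ Finset.range (8 * q), (1 + (ed q l + gd q l))) := by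
    refine (Rr_le_Rd _ _ _ (Or.inl rfl)).trans ((Rd_le hq (8 * q) le_rfl [] isB_nil).trans ?_)
    have e : (cst 2 : PS) = 2 := by
      have := cst_natCast 2
      push_cast at this
      exact this
    rw [e]
    gcongr
    exact Nc_nil_le _ _
  refine Nm.mono ?_ h1
  refine ((Nm_U (16 * q)).mul ((Nm_cst 2).mul nP)).weaken ?_
  have e1 : ((16 * q + 1 : ℕ) : ℝ≥0∞) = ENNReal.ofReal (2 * (8 * q) + 1) := by
    rw [← ENNReal.ofReal_natCast]; congr 1; push_cast; ring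
  have e2 : (2 : ℝ≥0∞) = ENNReal.ofReal 2 := by norm_num
  rw [e1, e2, ← ENNReal.ofReal_mul (by norm_num), ← ENNReal.ofReal_mul (by positivity)]
  apply ENNReal.ofReal_le_ofReal
  rw [mul_assoc]

end Pool.Agent.TH546.L2
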