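import Pool.Agent.TH546.L2.Mat2
import Pool.Agent.W387.S.Lnk

/-!
Pairs of extendable bridges of comparable widths, with long first or last irreducible pieces.
-/

set_option linter.unusedSectionVars false

namespace Pool.Agent.TH546.L2

open Pool.Agent.W387.S hiding PU_le PU
open H982
open scoped ENNReal
open PowerSeries
open H982F (BrSet mem_BrSet FBr SawSet mem_SawSet)
open H982R (Wk rf tm rf_le rf_gt rf_rf)
open H500S (tp tp_le tp_max tp_last tp_eq up_rf_ge)

variable [L : H982.Lat]

/-- the first irreducible piece of `T` has width at least `z` -/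
def FB (z : ℕ) (T : List St) : Prop := ∃ ι X, T = ι ++ X ∧ Irr ι ∧ IsB X ∧ z ≤ wd ι

/-- the last irreducible piece of `H` has width at least `z` -/
def LB (z : ℕ) (H : List St) : Prop := ∃ Y ι, H = Y ++ ι ∧ IsB Y ∧ Irr ι ∧ z ≤ wd ι

lemma FB.isB {z : ℕ} {T : List St} (h : FB z T) : IsB T := by
  obtain ⟨ι, X, rfl, h1, h2, -⟩ := h
  exact h1.1.append h2

lemma LB.isB {z : ℕ} {T : List St} (h : LB z T) : IsB T := by
  obtain ⟨Y, ι, rfl, h1, h2, -⟩ := h
  exact h1.append h2.1

/-- a cut time splits a bridge into two bridges -/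
lemma cut_split {B : List St} (hB : IsB B) {k : ℕ} (hkB : k < B.length)
    (h1 : ∀ j, j ≤ k → dx (B.take j) ≤ dx (B.take k))
    (h2 : ∀ j, k < j → j ≤ B.length → dx (B.take k) < dx (B.take j)) :
    Spl (wd (B.take k)) B (B.take k) (B.drop k) := by
  have hbr := hB.br
  have hp : B.take k <+: B := List.take_prefix _ _
  have hd : B.drop k <:+ B := List.drop_suffix _ _
  have hnn : 0 ≤ dx (B.take k) := (hbr.hp.prew hp).dx_nonneg
  have hw : (wd (B.take k) : ℤ) = dx (B.take k) := by unfold wd; omega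
  have hsum : dx B = dx (B.take k) + dx (B.drop k) := by
    conv_lhs => rw [← List.take_append_drop k B]
    rw [dx_append]
  have hpre : ∀ u, u <+: B.drop k → B.take (k + u.length) = B.take k ++ u := by
    intro u hu
    rw [List.take_add]
    congr 1
    exact (List.prefix_iff_eq_take.mp hu).symm
  refine ⟨(List.take_append_drop k B).symm, ⟨hbr.saw.subw hp.isInfix, hbr.hp.prew hp, ?_, ?_⟩,
    wd (B.drop k), hbr.saw.subw hd.isInfix, ?_, ?_, ?_⟩
  · intro u hu
    have h3 : u = B.take u.length := List.prefix_iff_eq_take.mp (hu.trans hp)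
    have h4 := hu.length_le
    rw [List.length_take] at h4
    have := h1 u.length (by omega)
    rw [← h3] at this
    omega
  · omega
  · intro u hu hu0
    have h3 : 0 < u.length := List.length_pos_iff.mpr hu0
    have h4 := hu.length_le
    rw [List.length_drop] at h4
    have h5 := h2 (k + u.length) (by omega) (by omega)
    rw [hpre u hu, dx_append] at h5
    omega
  · intro u hu
    have h3 : B.take k ++ u <+: B := by
      rw [← hpre u hu]; exact List.take_prefix _ _
    have h4 := hbr.le h3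
    rw [dx_append] at h4
    have h5 := hbr.dx
    have h6 : 0 ≤ dx (B.drop k) := hbr.suffix_nonneg hd
    unfold wd
    unfold wd at h4 h5
    omega
  · have h6 : 0 ≤ dx (B.drop k) := hbr.suffix_nonneg hd
    unfold wd
    omega

lemma fb_cut {z : ℕ} {B : List St} (h : FB z B) {k : ℕ} (hk : 0 < k) (hkB : k < B.length)
    (h1 : ∀ j, j ≤ k → dx (B.take j) ≤ dx (B.take k))
    (h2 : ∀ j, k < j → j ≤ B.length → dx (B.take k) < dx (B.take j)) :
    (z : ℤ) ≤ dx (B.take k) := by
  have s1 := cut_split h.isB hkB h1 h2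
  have hw := s1.2.1.isB.wd_eq_dx
  obtain ⟨ι, X, hBe, hι, hX, hz⟩ := h
  have s2 : Spl (wd ι) B ι X := ⟨hBe, hι.1.br, hX⟩
  by_contra hcon
  have hlt : wd (B.take k) < wd ι := by
    have : (z : ℤ) ≤ wd ι := by exact_mod_cast hz
    omega
  obtain ⟨M, e1, e2, e3⟩ := s1.refine s2 hlt.le
  rcases hι.2.2 _ _ _ ⟨e1, s1.2.1, e3.isB⟩ with h | h
  · have := congrArg List.length h
    rw [List.length_take, List.length_nil] at this
    omega
  · exact e3.ne_nil (by omega) h

lemma lb_cut {z : ℕ} {B : List St} (h : LB z B) {k : ℕ} (hkB : k < B.length)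
    (h1 : ∀ j, j ≤ k → dx (B.take j) ≤ dx (B.take k))
    (h2 : ∀ j, k < j → j ≤ B.length → dx (B.take k) < dx (B.take j)) :
    (z : ℤ) ≤ dx B - dx (B.take k) := by
  have s1 := cut_split h.isB hkB h1 h2
  have hw := s1.2.1.isB.wd_eq_dx
  have hwB := h.isB.wd_eq_dx
  obtain ⟨Y, ι, hBe, hY, hι, hz⟩ := h
  have s2 : Spl (wd Y) B Y ι := ⟨hBe, hY.br, hι.1⟩
  have hsum : wd B = wd Y + wd ι := by rw [hBe, wd_append hY hι.1]
  by_contra hcon
  have hlt : wd Y < wd (B.take k) := by omega
  obtain ⟨M, e1, e2, e3⟩ := s2.refine s1 hlt.le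
  rcases hι.2.2 _ _ _ ⟨e2, e3, s1.2.2⟩ with h | h
  · exact e3.ne_nil (by omega) h
  · have := congrArg List.length h
    rw [List.length_drop, List.length_nil] at this
    omega

lemma u1_pf {o : ℤ} {z : ℕ} {X Y : List St} (h : FB z X)
    (htp : tp (X ++ Y).length (pf o (X ++ sg Y)) = X.length) :
    U1 z (X ++ Y).length (pf o (X ++ sg Y)) := by
  intro i hi0 hi c1 c2
  rw [htp] at hi c2
  have e : ∀ j, j ≤ X.length → (pf o (X ++ sg Y) j).1 = dx (X.take j) := by
    intro j hj
    unfold pf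
    rw [take_append_le hj]
  rw [e i hi.le]
  refine fb_cut h hi0 hi ?_ ?_
  · intro j hj
    have := c1 j hj
    rwa [e i hi.le, e j (by omega)] at this
  · intro j h3 h4
    have := c2 j h3 h4
    rwa [e i hi.le, e j h4] at this

lemma d1_pf {o : ℤ} {z : ℕ} {X Y : List St} (h : LB z Y)
    (htp : tp (X ++ Y).length (pf o (X ++ sg Y)) = X.length) :
    D1 z (X ++ Y).length (pf o (X ++ sg Y)) := by
  intro i hi0 hi c1 c2
  rw [htp] at hi0 c1
  have hlen : (X ++ Y).length = X.length + Y.length := by simp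
  have e : ∀ j, j ≤ Y.length → (pf o (X ++ sg Y) (X.length + j)).1 = dx X - dx (Y.take j) := by
    intro j _
    unfold pf
    rw [take_append_gt (by omega)]
    have h8 : (sg Y).take (X.length + j - X.length) = sg (Y.take j) := by
      unfold sg
      rw [List.map_take, show X.length + j - X.length = j by omega]
    rw [h8, dx_append, dx_sg]
    ring
  obtain ⟨k, rfl⟩ : ∃ k, i = X.length + k := ⟨i - X.length, by omega⟩
  rw [hlen] at hi c2 ⊢
  have hk : k < Y.length := by omega
  rw [e k hk.le, e Y.length le_rfl, List.take_length]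
  have h9 := lb_cut h hk (fun j hj => by
    have := c1 (X.length + j) (by omega) (by omega)
    rw [e k hk.le, e j (by omega)] at this
    omega) (fun j h3 h4 => by
    have := c2 (X.length + j) (by omega) (by omega)
    rw [e k hk.le, e j h4] at this
    omega)
  omega

/-- the first irreducible piece from the cuts of the walk -/
lemma fb_of {o : ℤ} {z : ℕ} (hz : 1 ≤ z) {B : List St} (hB : IsB B) (hzB : z ≤ wd B)
    (h : U2 z B.length (pf o B)) : FB z B := by
  obtain ⟨X, ι, Y, rfl, hX, hι, hY, h3, h4⟩ := exists_triple hB.br (m := 0) (by omega)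
  have hX0 : X = [] := by
    by_contra h0
    have := hX.wd_pos h0
    omega
  subst hX0
  simp only [List.nil_append] at *
  refine ⟨ι, Y, rfl, hι, hY, ?_⟩
  by_cases hY0 : Y = []
  · subst hY0
    simpa using hzB
  · obtain ⟨c1, c2, c3⟩ := cut_pf o hι.1 hY hY0
    have hl : 0 < ι.length := List.length_pos_iff.mpr hι.2.1
    have e : (pf o (ι ++ Y) ι.length).1 = wd ι := by
      unfold pf
      rw [take_append_le le_rfl, List.take_length]
      exact hι.1.wd_eq_dx.symm
    have h5 := h ι.length hl c1 (fun j hj => by rw [e]; exact c2 j hj)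
      (fun j h5 _ => by rw [e]; exact c3 j h5)
    rw [e] at h5
    exact_mod_cast h5

/-- the last irreducible piece from the cuts of the walk -/
lemma lb_of {o : ℤ} {z : ℕ} (hz : 1 ≤ z) {B : List St} (hB : IsB B) (hzB : z ≤ wd B)
    (h : D2 z B.length (pf o B)) : LB z B := by
  obtain ⟨X, ι, Y, rfl, hX, hι, hY, h3, h4⟩ := exists_triple hB.br (m := wd B - 1) (by omega)
  have hw : wd (X ++ (ι ++ Y)) = wd X + (wd ι + wd Y) := by
    rw [wd_append hX (hι.1.append hY), wd_append hι.1 hY]
  have hY0 : Y = [] := by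
    by_contra h0
    have := hY.wd_pos h0
    omega
  subst hY0
  simp only [List.append_nil] at *
  refine ⟨X, ι, rfl, hX, hι, ?_⟩
  by_cases hX0 : X = []
  · subst hX0
    simpa using hzB
  · obtain ⟨c1, c2, c3⟩ := cut_pf o hX hι.1 hι.2.1
    have hl : 0 < X.length := List.length_pos_iff.mpr hX0
    have e : (pf o (X ++ ι) X.length).1 = wd X := by
      unfold pf
      rw [take_append_le le_rfl, List.take_length]
      exact hX.wd_eq_dx.symm
    have e2 : (pf o (X ++ ι) (X ++ ι).length).1 = wd X + wd ι := by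
      rw [pf_ge o le_rfl]
      simp only [dx_append]
      rw [hX.wd_eq_dx, hι.1.wd_eq_dx]
    have h5 := h X.length hl c1 (fun j hj => by rw [e]; exact c2 j hj)
      (fun j h5 _ => by rw [e]; exact c3 j h5)
    rw [e, e2] at h5
    omega

/-- bridges with long first or last irreducible piece -/
noncomputable def Ws (a b : Prop) (z V : ℕ) : PS :=
  fs (fun B => ii ((IsB B ∧ wd B ≤ V) ∧ (a → FB z B) ∧ (b → LB z B)) * xl B)

lemma coeff_Ws (a b : Prop) (z V n : ℕ) : coeff n (Ws a b z V) =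
    ∑' u : List St, ind (((IsB u ∧ wd u ≤ V) ∧ (a → FB z u) ∧ (b → LB z u)) ∧ u.length = n) *
      1 := by
  unfold Ws
  rw [coeff_fs]
  congr 1; ext u
  rw [coeff_ii_mul, coeff_xl, ind_and (_ ∧ _) (_ = _), mul_one]

lemma card_WX2_le (a b : Prop) (N : ℕ) {z V : ℕ} (hz : 1 ≤ z) :
    ((WX2 a b N z z V).card : ℝ≥0∞) ≤ 2 * coeff N (Ws a b z V) := by
  classical
  have h1 : ((WX2 a b N z z V).card : ℝ≥0∞) =
      ∑' w : ℕ → ℤ × ℤ, ind (w ∈ WX2 a b N z z V) * 1 := by
    rw [tsum_eq_sum (s := WX2 a b N z z V)]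
    · rw [Finset.sum_congr rfl (g := fun _ => (1 : ℝ≥0∞))]
      · simp
      · intro w hw
        rw [ind_of hw, mul_one]
    · intro w hw
      rw [ind_not hw, zero_mul]
  have h2 : 2 * coeff N (Ws a b z V) = ∑' q : Bool × List St,
      ind (((IsB q.2 ∧ wd q.2 ≤ V) ∧ (a → FB z q.2) ∧ (b → LB z q.2)) ∧ q.2.length = N) * 1 := by
    rw [coeff_Ws, ENNReal.tsum_prod', tsum_bool]
    simp only
    rw [two_mul]
  rw [h1, h2]
  refine tsum_cover _ _ _ _ (fun q : Bool × List St => pf (if q.1 then 1 else -1) q.2) ?_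
  intro w hw
  rw [mem_WX2] at hw
  obtain ⟨⟨hw1, hw2, hw3⟩, hw4, hw5⟩ := hw
  obtain ⟨o, u, ho, hok, hu, rfl⟩ := exists_word hw1.saw
  subst hu
  obtain ⟨h2, h3⟩ := isBr_of_fbr hok hw1
  have hzu : z ≤ wd u := by
    rw [← h3] at hw2
    exact_mod_cast hw2
  refine ⟨(decide (o = 1), u), ⟨⟨⟨h2.isB, ?_⟩, ?_, ?_⟩, rfl⟩, ?_, le_rfl⟩
  · simp only
    rw [← h3] at hw3
    have : wd u < V := by exact_mod_cast hw3
    omega
  · intro ha
    exact fb_of hz h2.isB hzu (hw4 ha)
  · intro hb
    exact lb_of hz h2.isB hzu (hw5 hb)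
  · simp only
    congr 1
    rcases ho with rfl | rfl <;> simp

end Pool.Agent.TH546.L2
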